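import Pool.Agent.helper26.M4.CovC2

/-!
# Project M4, block II, row COV: boxes for `3/5 <= th` (part 2; generated)
-/

set_option autoImplicit false

namespace Pool.Agent.M4.Cov

open Real Pool.Agent.M4.Fn

lemma seg7 {lam th : ℝ} (hl : 0 < lam) (h0 : (181 / 250) ≤ th) (h1 : th ≤ (151 / 200))
    (h2 : th < π / 2) (hsl : sinh lam < sin th) (hrr : 163 / 400 ≤ rr lam th)
    (hG0 : 0 ≤ Gf lam th) :
    Tg 1.69 lam th (lam / th * (π + th)) ∨ Tg 1.69 lam th (Gf lam th) := by
  have hm := mu_top (t0 := (181 / 250)) (t1 := (151 / 200)) (s1 := (17133 / 25000)) (mt := (947 / 1000)) hl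
    (by norm_num) h0 h1 h2 hsl (by norm_num) (by norm_num) (by norm_num)
  rcases le_total (lam / th) (219 / 1000) with h | h
  · left
    exact boxP1 (t0 := (181 / 250)) (t1 := (151 / 200)) (219 / 1000) (33119 / 50000) (74917 / 100000) (36413 / 50000) (100457 / 100000) (2759 / 100000) (19543 / 25000) (10667 / 12500)
      hl (by norm_num) h0 h1 h2 h
      (by norm_num) (by norm_num) (by norm_num) (by norm_num) (by norm_num) (by norm_num) (by norm_num)
      (by norm_num) (by norm_num) (by norm_num) (by norm_num) (by norm_num) (by norm_num) (by norm_num)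
  · right
    exact boxP2 (t0 := (181 / 250)) (t1 := (151 / 200)) (219 / 1000) (947 / 1000) (33119 / 50000) (17133 / 25000) (74917 / 100000) (36413 / 50000) (5443 / 5000) (507 / 20000) (46967 / 100000) (55571 / 100000) (82321 / 100000) (40949 / 25000) (154001 / 100000) (56429 / 50000) 0 (15823 / 20000) (8631 / 10000)
      hl (by norm_num) h0 h1 h2 hsl hrr hG0 h hm
      (by norm_num) (by norm_num) (by norm_num) (by norm_num) (by norm_num) (by norm_num)
      (by norm_num) (by norm_num) (by norm_num) (by norm_num) (by norm_num)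
      (Or.inr (by norm_num)) (by norm_num) (Or.inl (by norm_num))
      (by norm_num) (by norm_num) (by norm_num) (by norm_num) (by norm_num) (by norm_num) (by norm_num)
      (Or.inl (by norm_num)) (by norm_num) (by norm_num) (by norm_num) (by norm_num) (by norm_num) (by norm_num) (by norm_num)

lemma seg8 {lam th : ℝ} (hl : 0 < lam) (h0 : (151 / 200) ≤ th) (h1 : th ≤ (789 / 1000))
    (h2 : th < π / 2) (hsl : sinh lam < sin th) (hrr : 163 / 400 ≤ rr lam th)
    (hG0 : 0 ≤ Gf lam th) :
    Tg 1.69 lam th (lam / th * (π + th)) ∨ Tg 1.69 lam th (Gf lam th) := by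
  have hm := mu_top (t0 := (151 / 200)) (t1 := (789 / 1000)) (s1 := (70969 / 100000)) (mt := (47 / 50)) hl
    (by norm_num) h0 h1 h2 hsl (by norm_num) (by norm_num) (by norm_num)
  rcases le_total (lam / th) (233 / 1000) with h | h
  · left
    exact boxP1 (t0 := (151 / 200)) (t1 := (789 / 1000)) (233 / 1000) (4283 / 6250) (18207 / 25000) (14091 / 20000) (20113 / 20000) (1709 / 50000) (88539 / 100000) (91583 / 100000)
      hl (by norm_num) h0 h1 h2 h
      (by norm_num) (by norm_num) (by norm_num) (by norm_num) (by norm_num) (by norm_num) (by norm_num)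
      (by norm_num) (by norm_num) (by norm_num) (by norm_num) (by norm_num) (by norm_num) (by norm_num)
  · right
    exact boxP2 (t0 := (151 / 200)) (t1 := (789 / 1000)) (233 / 1000) (47 / 50) (4283 / 6250) (70969 / 100000) (18207 / 25000) (14091 / 20000) (109561 / 100000) (1563 / 50000) (25183 / 50000) (10553 / 20000) (21627 / 25000) (41483 / 25000) (165837 / 100000) (61347 / 50000) 0 (89177 / 100000) (91923 / 100000)
      hl (by norm_num) h0 h1 h2 hsl hrr hG0 h hm
      (by norm_num) (by norm_num) (by norm_num) (by norm_num) (by norm_num) (by norm_num)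
      (by norm_num) (by norm_num) (by norm_num) (by norm_num) (by norm_num)
      (Or.inr (by norm_num)) (by norm_num) (Or.inl (by norm_num))
      (by norm_num) (by norm_num) (by norm_num) (by norm_num) (by norm_num) (by norm_num) (by norm_num)
      (Or.inl (by norm_num)) (by norm_num) (by norm_num) (by norm_num) (by norm_num) (by norm_num) (by norm_num) (by norm_num)

lemma seg9 {lam th : ℝ} (hl : 0 < lam) (h0 : (789 / 1000) ≤ th) (h1 : th ≤ (413 / 500))
    (h2 : th < π / 2) (hsl : sinh lam < sin th) (hrr : 163 / 400 ≤ rr lam th)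
    (hG0 : 0 ≤ Gf lam th) :
    Tg 1.69 lam th (lam / th * (π + th)) ∨ Tg 1.69 lam th (Gf lam th) := by
  have hm := mu_top (t0 := (789 / 1000)) (t1 := (413 / 500)) (s1 := (9191 / 12500)) (mt := (233 / 250)) hl
    (by norm_num) h0 h1 h2 hsl (by norm_num) (by norm_num) (by norm_num)
  rcases le_total (lam / th) (249 / 1000) with h | h
  · left
    exact boxP1 (t0 := (789 / 1000)) (t1 := (413 / 500)) (249 / 1000) (17741 / 25000) (8807 / 12500) (67781 / 100000) (25177 / 25000) (4291 / 100000) (25333 / 25000) (49397 / 50000)
      hl (by norm_num) h0 h1 h2 h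
      (by norm_num) (by norm_num) (by norm_num) (by norm_num) (by norm_num) (by norm_num) (by norm_num)
      (by norm_num) (by norm_num) (by norm_num) (by norm_num) (by norm_num) (by norm_num) (by norm_num)
  · right
    exact boxP2 (t0 := (789 / 1000)) (t1 := (413 / 500)) (249 / 1000) (233 / 250) (17741 / 25000) (9191 / 12500) (8807 / 12500) (67781 / 100000) (55167 / 50000) (3909 / 100000) (3379 / 6250) (49851 / 100000) (45521 / 50000) (33661 / 20000) (89701 / 50000) (134457 / 100000) 0 (25173 / 25000) (49187 / 50000)
      hl (by norm_num) h0 h1 h2 hsl hrr hG0 h hm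
      (by norm_num) (by norm_num) (by norm_num) (by norm_num) (by norm_num) (by norm_num)
      (by norm_num) (by norm_num) (by norm_num) (by norm_num) (by norm_num)
      (Or.inr (by norm_num)) (by norm_num) (Or.inl (by norm_num))
      (by norm_num) (by norm_num) (by norm_num) (by norm_num) (by norm_num) (by norm_num) (by norm_num)
      (Or.inl (by norm_num)) (by norm_num) (by norm_num) (by norm_num) (by norm_num) (by norm_num) (by norm_num) (by norm_num)

lemma seg10 {lam th : ℝ} (hl : 0 < lam) (h0 : (413 / 500) ≤ th) (h1 : th ≤ (857 / 1000))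
    (h2 : th < π / 2) (hsl : sinh lam < sin th) (hrr : 163 / 400 ≤ rr lam th)
    (hG0 : 0 ≤ Gf lam th) :
    Tg 1.69 lam th (lam / th * (π + th)) ∨ Tg 1.69 lam th (Gf lam th) := by
  have hm := mu_top (t0 := (413 / 500)) (t1 := (857 / 1000)) (s1 := (15119 / 20000)) (mt := (229 / 250)) hl
    (by norm_num) h0 h1 h2 hsl (by norm_num) (by norm_num) (by norm_num)
  rcases le_total (lam / th) (67 / 250) with h | h
  · left
    exact boxP1 (t0 := (413 / 500)) (t1 := (857 / 1000)) (67 / 250) (36761 / 50000) (67783 / 100000) (6547 / 10000) (100883 / 100000) (5369 / 100000) (115803 / 100000) (107163 / 100000)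
      hl (by norm_num) h0 h1 h2 h
      (by norm_num) (by norm_num) (by norm_num) (by norm_num) (by norm_num) (by norm_num) (by norm_num)
      (by norm_num) (by norm_num) (by norm_num) (by norm_num) (by norm_num) (by norm_num) (by norm_num)
  · right
    exact boxP2 (t0 := (413 / 500)) (t1 := (857 / 1000)) (67 / 250) (229 / 250) (36761 / 50000) (15119 / 20000) (67783 / 100000) (6547 / 10000) (27691 / 25000) (249 / 5000) (57147 / 100000) (47843 / 100000) (94567 / 100000) (42511 / 25000) (37827 / 20000) (14499 / 10000) 0 (53933 / 50000) (50847 / 50000)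
      hl (by norm_num) h0 h1 h2 hsl hrr hG0 h hm
      (by norm_num) (by norm_num) (by norm_num) (by norm_num) (by norm_num) (by norm_num)
      (by norm_num) (by norm_num) (by norm_num) (by norm_num) (by norm_num)
      (Or.inr (by norm_num)) (by norm_num) (Or.inl (by norm_num))
      (by norm_num) (by norm_num) (by norm_num) (by norm_num) (by norm_num) (by norm_num) (by norm_num)
      (Or.inl (by norm_num)) (by norm_num) (by norm_num) (by norm_num) (by norm_num) (by norm_num) (by norm_num) (by norm_num)

end Pool.Agent.M4.Cov
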