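import Pool.Agent.helper26.M4.CovC2

/-!
# Project M4, block II, row COV: boxes for `3/5 <= th` (part 3; generated)
-/

set_option autoImplicit false

namespace Pool.Agent.M4.Cov

open Real Pool.Agent.M4.Fn

lemma seg11 {lam th : ℝ} (hl : 0 < lam) (h0 : (857 / 1000) ≤ th) (h1 : th ≤ (901 / 1000))
    (h2 : th < π / 2) (hsl : sinh lam < sin th) (hrr : 163 / 400 ≤ rr lam th)
    (hG0 : 0 ≤ Gf lam th) :
    Tg 1.69 lam th (lam / th * (π + th)) ∨ Tg 1.69 lam th (Gf lam th) := by
  have hm := mu_top (t0 := (857 / 1000)) (t1 := (901 / 1000)) (s1 := (15681 / 20000)) (mt := (183 / 200)) hl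
    (by norm_num) h0 h1 h2 hsl (by norm_num) (by norm_num) (by norm_num)
  rcases le_total (lam / th) (279 / 1000) with h | h
  · left
    exact boxP1 (t0 := (857 / 1000)) (t1 := (901 / 1000)) (279 / 1000) (18897 / 25000) (65471 / 100000) (62081 / 100000) (101059 / 100000) (3227 / 50000) (16117 / 12500) (112789 / 100000)
      hl (by norm_num) h0 h1 h2 h
      (by norm_num) (by norm_num) (by norm_num) (by norm_num) (by norm_num) (by norm_num) (by norm_num)
      (by norm_num) (by norm_num) (by norm_num) (by norm_num) (by norm_num) (by norm_num) (by norm_num)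
  · right
    rcases le_total (lam / th) (329 / 1000) with g0 | g0
    · exact boxP2 (t0 := (857 / 1000)) (t1 := (901 / 1000)) (279 / 1000) (329 / 1000) (18897 / 25000) (15681 / 20000) (65471 / 100000) (62081 / 100000) (4059 / 4000) (2913 / 50000) (9049 / 100000) (22183 / 50000) (50069 / 50000) (86641 / 50000) (188867 / 100000) (73637 / 50000) 0 (127489 / 100000) (14001 / 12500)
        hl (by norm_num) h0 h1 h2 hsl hrr hG0 h g0
        (by norm_num) (by norm_num) (by norm_num) (by norm_num) (by norm_num) (by norm_num)
        (by norm_num) (by norm_num) (by norm_num) (by norm_num) (by norm_num)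
        (Or.inl (by norm_num)) (by norm_num) (Or.inl (by norm_num))
        (by norm_num) (by norm_num) (by norm_num) (by norm_num) (by norm_num) (by norm_num) (by norm_num)
        (Or.inl (by norm_num)) (by norm_num) (by norm_num) (by norm_num) (by norm_num) (by norm_num) (by norm_num) (by norm_num)
    · skip
      exact boxP2 (t0 := (857 / 1000)) (t1 := (901 / 1000)) (329 / 1000) (183 / 200) (18897 / 25000) (15681 / 20000) (65471 / 100000) (62081 / 100000) (13991 / 12500) (8161 / 100000) (30737 / 50000) (46701 / 100000) (6137 / 6250) (85537 / 50000) (206953 / 100000) (32489 / 20000) 0 (113677 / 100000) (95239 / 100000)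
        hl (by norm_num) h0 h1 h2 hsl hrr hG0 g0 hm
        (by norm_num) (by norm_num) (by norm_num) (by norm_num) (by norm_num) (by norm_num)
        (by norm_num) (by norm_num) (by norm_num) (by norm_num) (by norm_num)
        (Or.inr (by norm_num)) (by norm_num) (Or.inl (by norm_num))
        (by norm_num) (by norm_num) (by norm_num) (by norm_num) (by norm_num) (by norm_num) (by norm_num)
        (Or.inl (by norm_num)) (by norm_num) (by norm_num) (by norm_num) (by norm_num) (by norm_num) (by norm_num) (by norm_num)

lemma seg12 {lam th : ℝ} (hl : 0 < lam) (h0 : (901 / 1000) ≤ th) (h1 : th ≤ (943 / 1000))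
    (h2 : th < π / 2) (hsl : sinh lam < sin th) (hrr : 163 / 400 ≤ rr lam th)
    (hG0 : 0 ≤ Gf lam th) :
    Tg 1.69 lam th (lam / th * (π + th)) ∨ Tg 1.69 lam th (Gf lam th) := by
  have hm := mu_top (t0 := (901 / 1000)) (t1 := (943 / 1000)) (s1 := (40473 / 50000)) (mt := (899 / 1000)) hl
    (by norm_num) h0 h1 h2 hsl (by norm_num) (by norm_num) (by norm_num)
  rcases le_total (lam / th) (299 / 1000) with h | h
  · left
    exact boxP1 (t0 := (901 / 1000)) (t1 := (943 / 1000)) (299 / 1000) (39197 / 50000) (62083 / 100000) (29367 / 50000) (50667 / 50000) (2041 / 25000) (149057 / 100000) (12213 / 10000)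
      hl (by norm_num) h0 h1 h2 h
      (by norm_num) (by norm_num) (by norm_num) (by norm_num) (by norm_num) (by norm_num) (by norm_num)
      (by norm_num) (by norm_num) (by norm_num) (by norm_num) (by norm_num) (by norm_num) (by norm_num)
  · right
    rcases le_total (lam / th) (179 / 500) with g0 | g0
    · exact boxP2 (t0 := (901 / 1000)) (t1 := (943 / 1000)) (299 / 1000) (179 / 500) (39197 / 50000) (40473 / 50000) (62083 / 100000) (29367 / 50000) (101917 / 100000) (3717 / 50000) (11839 / 100000) (4193 / 10000) (104781 / 100000) (87873 / 50000) (203213 / 100000) (163633 / 100000) 0 (72739 / 50000) (120171 / 100000)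
        hl (by norm_num) h0 h1 h2 hsl hrr hG0 h g0
        (by norm_num) (by norm_num) (by norm_num) (by norm_num) (by norm_num) (by norm_num)
        (by norm_num) (by norm_num) (by norm_num) (by norm_num) (by norm_num)
        (Or.inl (by norm_num)) (by norm_num) (Or.inl (by norm_num))
        (by norm_num) (by norm_num) (by norm_num) (by norm_num) (by norm_num) (by norm_num) (by norm_num)
        (Or.inl (by norm_num)) (by norm_num) (by norm_num) (by norm_num) (by norm_num) (by norm_num) (by norm_num) (by norm_num)
    · skip
      exact boxP2 (t0 := (901 / 1000)) (t1 := (943 / 1000)) (179 / 500) (899 / 1000) (39197 / 50000) (40473 / 50000) (62083 / 100000) (29367 / 50000) (2253 / 2000) (673 / 6250) (65523 / 100000) (2829 / 6250) (50907 / 50000) (5388 / 3125) (221883 / 100000) (36173 / 20000) 0 (122017 / 100000) (3182 / 3125)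
        hl (by norm_num) h0 h1 h2 hsl hrr hG0 g0 hm
        (by norm_num) (by norm_num) (by norm_num) (by norm_num) (by norm_num) (by norm_num)
        (by norm_num) (by norm_num) (by norm_num) (by norm_num) (by norm_num)
        (Or.inr (by norm_num)) (by norm_num) (Or.inl (by norm_num))
        (by norm_num) (by norm_num) (by norm_num) (by norm_num) (by norm_num) (by norm_num) (by norm_num)
        (Or.inl (by norm_num)) (by norm_num) (by norm_num) (by norm_num) (by norm_num) (by norm_num) (by norm_num) (by norm_num)

lemma seg13 {lam th : ℝ} (hl : 0 < lam) (h0 : (943 / 1000) ≤ th) (h1 : th ≤ (979 / 1000))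
    (h2 : th < π / 2) (hsl : sinh lam < sin th) (hrr : 163 / 400 ≤ rr lam th)
    (hG0 : 0 ≤ Gf lam th) :
    Tg 1.69 lam th (lam / th * (π + th)) ∨ Tg 1.69 lam th (Gf lam th) := by
  have hm := mu_top (t0 := (943 / 1000)) (t1 := (979 / 1000)) (s1 := (83011 / 100000)) (mt := (881 / 1000)) hl
    (by norm_num) h0 h1 h2 hsl (by norm_num) (by norm_num) (by norm_num)
  rcases le_total (lam / th) (159 / 500) with h | h
  · left
    exact boxP1 (t0 := (943 / 1000)) (t1 := (979 / 1000)) (159 / 500) (20233 / 25000) (58737 / 100000) (55783 / 100000) (25407 / 25000) (10011 / 100000) (42411 / 25000) (32759 / 25000)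
      hl (by norm_num) h0 h1 h2 h
      (by norm_num) (by norm_num) (by norm_num) (by norm_num) (by norm_num) (by norm_num) (by norm_num)
      (by norm_num) (by norm_num) (by norm_num) (by norm_num) (by norm_num) (by norm_num) (by norm_num)
  · right
    rcases le_total (lam / th) (103 / 250) with g0 | g0
    · exact boxP2 (t0 := (943 / 1000)) (t1 := (979 / 1000)) (159 / 500) (103 / 250) (20233 / 25000) (83011 / 100000) (58737 / 100000) (55783 / 100000) (51373 / 50000) (579 / 6250) (687 / 4000) (163 / 400) (10789 / 10000) (35401 / 20000) (43091 / 20000) (180321 / 100000) 0 (159989 / 100000) (126179 / 100000)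
        hl (by norm_num) h0 h1 h2 hsl hrr hG0 h g0
        (by norm_num) (by norm_num) (by norm_num) (by norm_num) (by norm_num) (by norm_num)
        (by norm_num) (by norm_num) (by norm_num) (by norm_num) (by norm_num)
        (Or.inl (by norm_num)) (by norm_num) (Or.inr (by norm_num))
        (by norm_num) (by norm_num) (by norm_num) (by norm_num) (by norm_num) (by norm_num) (by norm_num)
        (Or.inl (by norm_num)) (by norm_num) (by norm_num) (by norm_num) (by norm_num) (by norm_num) (by norm_num) (by norm_num)
    · skip
      exact boxP2 (t0 := (943 / 1000)) (t1 := (979 / 1000)) (103 / 250) (881 / 1000) (20233 / 25000) (83011 / 100000) (58737 / 100000) (55783 / 100000) (56559 / 50000) (15863 / 100000) (68909 / 100000) (2349 / 5000) (102321 / 100000) (8541 / 5000) (57643 / 25000) 0 (979 / 1000) (129977 / 100000) (105069 / 100000)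
        hl (by norm_num) h0 h1 h2 hsl hrr hG0 g0 hm
        (by norm_num) (by norm_num) (by norm_num) (by norm_num) (by norm_num) (by norm_num)
        (by norm_num) (by norm_num) (by norm_num) (by norm_num) (by norm_num)
        (Or.inr (by norm_num)) (by norm_num) (Or.inl (by norm_num))
        (by norm_num) (by norm_num) (by norm_num) (by norm_num) (by norm_num) (by norm_num) (by norm_num)
        (Or.inr (by norm_num)) (by norm_num) (by norm_num) (by norm_num) (by norm_num) (by norm_num) (by norm_num) (by norm_num)

lemma seg14 {lam th : ℝ} (hl : 0 < lam) (h0 : (979 / 1000) ≤ th) (h1 : th ≤ (128 / 125))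
    (h2 : th < π / 2) (hsl : sinh lam < sin th) (hrr : 163 / 400 ≤ rr lam th)
    (hG0 : 0 ≤ Gf lam th) :
    Tg 1.69 lam th (lam / th * (π + th)) ∨ Tg 1.69 lam th (Gf lam th) := by
  have hm := mu_top (t0 := (979 / 1000)) (t1 := (128 / 125)) (s1 := (85443 / 100000)) (mt := (873 / 1000)) hl
    (by norm_num) h0 h1 h2 hsl (by norm_num) (by norm_num) (by norm_num)
  rcases le_total (lam / th) (33 / 100) with h | h
  · left
    exact boxP1 (t0 := (979 / 1000)) (t1 := (128 / 125)) (33 / 100) (82993 / 100000) (27893 / 50000) (6499 / 12500) (101921 / 100000) (5931 / 50000) (187843 / 100000) (27493 / 20000)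
      hl (by norm_num) h0 h1 h2 h
      (by norm_num) (by norm_num) (by norm_num) (by norm_num) (by norm_num) (by norm_num) (by norm_num)
      (by norm_num) (by norm_num) (by norm_num) (by norm_num) (by norm_num) (by norm_num) (by norm_num)
  · right
    rcases le_total (lam / th) (183 / 500) with g0 | g0
    · exact boxP2 (t0 := (979 / 1000)) (t1 := (128 / 125)) (33 / 100) (183 / 500) (82993 / 100000) (85443 / 100000) (27893 / 50000) (6499 / 12500) (102367 / 100000) (10803 / 100000) (92 / 625) (163 / 400) (55097 / 50000) (35401 / 20000) (114497 / 50000) (12601 / 6250) 0 (91183 / 50000) (134779 / 100000)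
        hl (by norm_num) h0 h1 h2 hsl hrr hG0 h g0
        (by norm_num) (by norm_num) (by norm_num) (by norm_num) (by norm_num) (by norm_num)
        (by norm_num) (by norm_num) (by norm_num) (by norm_num) (by norm_num)
        (Or.inl (by norm_num)) (by norm_num) (Or.inr (by norm_num))
        (by norm_num) (by norm_num) (by norm_num) (by norm_num) (by norm_num) (by norm_num) (by norm_num)
        (Or.inl (by norm_num)) (by norm_num) (by norm_num) (by norm_num) (by norm_num) (by norm_num) (by norm_num) (by norm_num)
    · skip
      rcases le_total (lam / th) (47 / 100) with g1 | g1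
      · exact boxP2 (t0 := (979 / 1000)) (t1 := (128 / 125)) (183 / 500) (47 / 100) (82993 / 100000) (85443 / 100000) (27893 / 50000) (6499 / 12500) (103931 / 100000) (6697 / 50000) (1251 / 5000) (163 / 400) (55097 / 50000) (35401 / 20000) (116301 / 50000) (25587 / 12500) 0 (33451 / 20000) (31883 / 25000)
          hl (by norm_num) h0 h1 h2 hsl hrr hG0 g0 g1
          (by norm_num) (by norm_num) (by norm_num) (by norm_num) (by norm_num) (by norm_num)
          (by norm_num) (by norm_num) (by norm_num) (by norm_num) (by norm_num)
          (Or.inl (by norm_num)) (by norm_num) (Or.inr (by norm_num))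
          (by norm_num) (by norm_num) (by norm_num) (by norm_num) (by norm_num) (by norm_num) (by norm_num)
          (Or.inl (by norm_num)) (by norm_num) (by norm_num) (by norm_num) (by norm_num) (by norm_num) (by norm_num) (by norm_num)
      · skip
        exact boxP2 (t0 := (979 / 1000)) (t1 := (128 / 125)) (47 / 100) (873 / 1000) (82993 / 100000) (85443 / 100000) (27893 / 50000) (6499 / 12500) (114149 / 100000) (5673 / 25000) (36503 / 50000) (49723 / 100000) (2559 / 2500) (84207 / 50000) (12251 / 5000) 0 (128 / 125) (136261 / 100000) (50669 / 50000)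
          hl (by norm_num) h0 h1 h2 hsl hrr hG0 g1 hm
          (by norm_num) (by norm_num) (by norm_num) (by norm_num) (by norm_num) (by norm_num)
          (by norm_num) (by norm_num) (by norm_num) (by norm_num) (by norm_num)
          (Or.inr (by norm_num)) (by norm_num) (Or.inl (by norm_num))
          (by norm_num) (by norm_num) (by norm_num) (by norm_num) (by norm_num) (by norm_num) (by norm_num)
          (Or.inr (by norm_num)) (by norm_num) (by norm_num) (by norm_num) (by norm_num) (by norm_num) (by norm_num) (by norm_num)

end Pool.Agent.M4.Cov
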