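import Pool.Agent.helper26.M4.CovC2

/-!
# Project M4, block II, row COV: boxes for `3/5 <= th` (part 4; generated)
-/

set_option autoImplicit false

namespace Pool.Agent.M4.Cov

open Real Pool.Agent.M4.Fn

lemma seg15 {lam th : ℝ} (hl : 0 < lam) (h0 : (128 / 125) ≤ th) (h1 : th ≤ (1061 / 1000))
    (h2 : th < π / 2) (hsl : sinh lam < sin th) (hrr : 163 / 400 ≤ rr lam th)
    (hG0 : 0 ≤ Gf lam th) :
    Tg 1.69 lam th (lam / th * (π + th)) ∨ Tg 1.69 lam th (Gf lam th) := by
  have hm := mu_top (t0 := (128 / 125)) (t1 := (1061 / 1000)) (s1 := (43657 / 50000)) (mt := (853 / 1000)) hl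
    (by norm_num) h0 h1 h2 hsl (by norm_num) (by norm_num) (by norm_num)
  rcases le_total (lam / th) (347 / 1000) with h | h
  · left
    exact boxP1 (t0 := (128 / 125)) (t1 := (1061 / 1000)) (347 / 1000) (85419 / 100000) (12999 / 25000) (12199 / 25000) (102283 / 100000) (14181 / 100000) (21143 / 10000) (145831 / 100000)
      hl (by norm_num) h0 h1 h2 h
      (by norm_num) (by norm_num) (by norm_num) (by norm_num) (by norm_num) (by norm_num) (by norm_num)
      (by norm_num) (by norm_num) (by norm_num) (by norm_num) (by norm_num) (by norm_num) (by norm_num)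
  · right
    rcases le_total (lam / th) (99 / 250) with g0 | g0
    · exact boxP2 (t0 := (128 / 125)) (t1 := (1061 / 1000)) (347 / 1000) (99 / 250) (85419 / 100000) (43657 / 50000) (12999 / 25000) (12199 / 25000) (102983 / 100000) (6581 / 50000) (9361 / 50000) (163 / 400) (111939 / 100000) (35401 / 20000) (120167 / 50000) (111961 / 50000) 0 (50093 / 25000) (141187 / 100000)
        hl (by norm_num) h0 h1 h2 hsl hrr hG0 h g0
        (by norm_num) (by norm_num) (by norm_num) (by norm_num) (by norm_num) (by norm_num)
        (by norm_num) (by norm_num) (by norm_num) (by norm_num) (by norm_num)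
        (Or.inl (by norm_num)) (by norm_num) (Or.inr (by norm_num))
        (by norm_num) (by norm_num) (by norm_num) (by norm_num) (by norm_num) (by norm_num) (by norm_num)
        (Or.inl (by norm_num)) (by norm_num) (by norm_num) (by norm_num) (by norm_num) (by norm_num) (by norm_num) (by norm_num)
    · skip
      rcases le_total (lam / th) (481 / 1000) with g1 | g1
      · exact boxP2 (t0 := (128 / 125)) (t1 := (1061 / 1000)) (99 / 250) (481 / 1000) (85419 / 100000) (43657 / 50000) (12999 / 25000) (12199 / 25000) (104429 / 100000) (4339 / 25000) (28403 / 100000) (20583 / 50000) (13941 / 12500) (44139 / 25000) (121607 / 50000) (227067 / 100000) 0 (45711 / 25000) (132643 / 100000)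
          hl (by norm_num) h0 h1 h2 hsl hrr hG0 g0 g1
          (by norm_num) (by norm_num) (by norm_num) (by norm_num) (by norm_num) (by norm_num)
          (by norm_num) (by norm_num) (by norm_num) (by norm_num) (by norm_num)
          (Or.inl (by norm_num)) (by norm_num) (Or.inl (by norm_num))
          (by norm_num) (by norm_num) (by norm_num) (by norm_num) (by norm_num) (by norm_num) (by norm_num)
          (Or.inl (by norm_num)) (by norm_num) (by norm_num) (by norm_num) (by norm_num) (by norm_num) (by norm_num) (by norm_num)
      · skip
        exact boxP2 (t0 := (128 / 125)) (t1 := (1061 / 1000)) (481 / 1000) (853 / 1000) (85419 / 100000) (43657 / 50000) (12999 / 25000) (12199 / 25000) (114523 / 100000) (26261 / 100000) (38119 / 50000) (50071 / 100000) (103769 / 100000) (4203 / 2500) (256077 / 100000) 0 (1061 / 1000) (18059 / 12500) (3427 / 3125)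
          hl (by norm_num) h0 h1 h2 hsl hrr hG0 g1 hm
          (by norm_num) (by norm_num) (by norm_num) (by norm_num) (by norm_num) (by norm_num)
          (by norm_num) (by norm_num) (by norm_num) (by norm_num) (by norm_num)
          (Or.inr (by norm_num)) (by norm_num) (Or.inl (by norm_num))
          (by norm_num) (by norm_num) (by norm_num) (by norm_num) (by norm_num) (by norm_num) (by norm_num)
          (Or.inr (by norm_num)) (by norm_num) (by norm_num) (by norm_num) (by norm_num) (by norm_num) (by norm_num) (by norm_num)

lemma seg16 {lam th : ℝ} (hl : 0 < lam) (h0 : (1061 / 1000) ≤ th) (h1 : th ≤ (1087 / 1000))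
    (h2 : th < π / 2) (hsl : sinh lam < sin th) (hrr : 163 / 400 ≤ rr lam th)
    (hG0 : 0 ≤ Gf lam th) :
    Tg 1.69 lam th (lam / th * (π + th)) ∨ Tg 1.69 lam th (Gf lam th) := by
  have hm := mu_top (t0 := (1061 / 1000)) (t1 := (1087 / 1000)) (s1 := (88559 / 100000)) (mt := (167 / 200)) hl
    (by norm_num) h0 h1 h2 hsl (by norm_num) (by norm_num) (by norm_num)
  rcases le_total (lam / th) (361 / 1000) with h | h
  · left
    exact boxP1 (t0 := (1061 / 1000)) (t1 := (1087 / 1000)) (361 / 1000) (87283 / 100000) (61 / 125) (46509 / 100000) (51299 / 50000) (16209 / 100000) (46169 / 20000) (152653 / 100000)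
      hl (by norm_num) h0 h1 h2 h
      (by norm_num) (by norm_num) (by norm_num) (by norm_num) (by norm_num) (by norm_num) (by norm_num)
      (by norm_num) (by norm_num) (by norm_num) (by norm_num) (by norm_num) (by norm_num) (by norm_num)
  · right
    rcases le_total (lam / th) (413 / 1000) with g0 | g0
    · exact boxP2 (t0 := (1061 / 1000)) (t1 := (1087 / 1000)) (361 / 1000) (413 / 1000) (87283 / 100000) (88559 / 100000) (61 / 125) (46509 / 100000) (25853 / 25000) (3849 / 25000) (21553 / 100000) (163 / 400) (56543 / 50000) (35401 / 20000) (247931 / 100000) (241693 / 100000) 0 (26929 / 12500) (146073 / 100000)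
        hl (by norm_num) h0 h1 h2 hsl hrr hG0 h g0
        (by norm_num) (by norm_num) (by norm_num) (by norm_num) (by norm_num) (by norm_num)
        (by norm_num) (by norm_num) (by norm_num) (by norm_num) (by norm_num)
        (Or.inl (by norm_num)) (by norm_num) (Or.inr (by norm_num))
        (by norm_num) (by norm_num) (by norm_num) (by norm_num) (by norm_num) (by norm_num) (by norm_num)
        (Or.inl (by norm_num)) (by norm_num) (by norm_num) (by norm_num) (by norm_num) (by norm_num) (by norm_num) (by norm_num)
    · skip
      rcases le_total (lam / th) (491 / 1000) with g1 | g1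
      · exact boxP2 (t0 := (1061 / 1000)) (t1 := (1087 / 1000)) (413 / 1000) (491 / 1000) (87283 / 100000) (88559 / 100000) (61 / 125) (46509 / 100000) (104853 / 100000) (20449 / 100000) (15659 / 50000) (42079 / 100000) (55893 / 50000) (17559 / 10000) (62379 / 25000) (245061 / 100000) 0 (194987 / 100000) (34263 / 25000)
          hl (by norm_num) h0 h1 h2 hsl hrr hG0 g0 g1
          (by norm_num) (by norm_num) (by norm_num) (by norm_num) (by norm_num) (by norm_num)
          (by norm_num) (by norm_num) (by norm_num) (by norm_num) (by norm_num)
          (Or.inl (by norm_num)) (by norm_num) (Or.inl (by norm_num))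
          (by norm_num) (by norm_num) (by norm_num) (by norm_num) (by norm_num) (by norm_num) (by norm_num)
          (Or.inl (by norm_num)) (by norm_num) (by norm_num) (by norm_num) (by norm_num) (by norm_num) (by norm_num) (by norm_num)
      · skip
        exact boxP2 (t0 := (1061 / 1000)) (t1 := (1087 / 1000)) (491 / 1000) (167 / 200) (87283 / 100000) (88559 / 100000) (61 / 125) (46509 / 100000) (28653 / 25000) (29649 / 100000) (78427 / 100000) (51279 / 100000) (103943 / 100000) (167121 / 100000) (261709 / 100000) 0 (1087 / 1000) (7561 / 5000) (22657 / 20000)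
          hl (by norm_num) h0 h1 h2 hsl hrr hG0 g1 hm
          (by norm_num) (by norm_num) (by norm_num) (by norm_num) (by norm_num) (by norm_num)
          (by norm_num) (by norm_num) (by norm_num) (by norm_num) (by norm_num)
          (Or.inr (by norm_num)) (by norm_num) (Or.inl (by norm_num))
          (by norm_num) (by norm_num) (by norm_num) (by norm_num) (by norm_num) (by norm_num) (by norm_num)
          (Or.inr (by norm_num)) (by norm_num) (by norm_num) (by norm_num) (by norm_num) (by norm_num) (by norm_num) (by norm_num)

lemma seg17 {lam th : ℝ} (hl : 0 < lam) (h0 : (1087 / 1000) ≤ th) (h1 : th ≤ (138 / 125))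
    (h2 : th < π / 2) (hsl : sinh lam < sin th) (hrr : 163 / 400 ≤ rr lam th)
    (hG0 : 0 ≤ Gf lam th) :
    Tg 1.69 lam th (lam / th * (π + th)) ∨ Tg 1.69 lam th (Gf lam th) := by
  have hm := mu_top (t0 := (1087 / 1000)) (t1 := (138 / 125)) (s1 := (89341 / 100000)) (mt := (411 / 500)) hl
    (by norm_num) h0 h1 h2 hsl (by norm_num) (by norm_num) (by norm_num)
  rcases le_total (lam / th) (37 / 100) with h | h
  · left
    exact boxP1 (t0 := (1087 / 1000)) (t1 := (138 / 125)) (37 / 100) (44261 / 50000) (9303 / 20000) (44997 / 100000) (51409 / 50000) (441 / 2500) (30553 / 12500) (4909 / 3125)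
      hl (by norm_num) h0 h1 h2 h
      (by norm_num) (by norm_num) (by norm_num) (by norm_num) (by norm_num) (by norm_num) (by norm_num)
      (by norm_num) (by norm_num) (by norm_num) (by norm_num) (by norm_num) (by norm_num) (by norm_num)
  · right
    rcases le_total (lam / th) (17 / 40) with g0 | g0
    · exact boxP2 (t0 := (1087 / 1000)) (t1 := (138 / 125)) (37 / 100) (17 / 40) (44261 / 50000) (89341 / 100000) (9303 / 20000) (44997 / 100000) (103733 / 100000) (17059 / 100000) (2369 / 10000) (163 / 400) (113801 / 100000) (35401 / 20000) (252977 / 100000) (254509 / 100000) 0 (225147 / 100000) (149791 / 100000)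
        hl (by norm_num) h0 h1 h2 hsl hrr hG0 h g0
        (by norm_num) (by norm_num) (by norm_num) (by norm_num) (by norm_num) (by norm_num)
        (by norm_num) (by norm_num) (by norm_num) (by norm_num) (by norm_num)
        (Or.inl (by norm_num)) (by norm_num) (Or.inr (by norm_num))
        (by norm_num) (by norm_num) (by norm_num) (by norm_num) (by norm_num) (by norm_num) (by norm_num)
        (Or.inl (by norm_num)) (by norm_num) (by norm_num) (by norm_num) (by norm_num) (by norm_num) (by norm_num) (by norm_num)
    · skip
      rcases le_total (lam / th) (1 / 2) with g1 | g1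
      · exact boxP2 (t0 := (1087 / 1000)) (t1 := (138 / 125)) (17 / 40) (1 / 2) (44261 / 50000) (89341 / 100000) (9303 / 20000) (44997 / 100000) (105199 / 100000) (22887 / 100000) (16861 / 50000) (21567 / 50000) (13937 / 12500) (87253 / 50000) (126543 / 50000) (129053 / 50000) 0 (50617 / 25000) (34907 / 25000)
          hl (by norm_num) h0 h1 h2 hsl hrr hG0 g0 g1
          (by norm_num) (by norm_num) (by norm_num) (by norm_num) (by norm_num) (by norm_num)
          (by norm_num) (by norm_num) (by norm_num) (by norm_num) (by norm_num)
          (Or.inl (by norm_num)) (by norm_num) (Or.inl (by norm_num))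
          (by norm_num) (by norm_num) (by norm_num) (by norm_num) (by norm_num) (by norm_num) (by norm_num)
          (Or.inl (by norm_num)) (by norm_num) (by norm_num) (by norm_num) (by norm_num) (by norm_num) (by norm_num) (by norm_num)
      · skip
        exact boxP2 (t0 := (1087 / 1000)) (t1 := (138 / 125)) (1 / 2) (411 / 500) (44261 / 50000) (89341 / 100000) (9303 / 20000) (44997 / 100000) (114607 / 100000) (32519 / 100000) (79819 / 100000) (26383 / 50000) (20703 / 20000) (165931 / 100000) (16517 / 6250) 0 (138 / 125) (155911 / 100000) (57039 / 50000)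
          hl (by norm_num) h0 h1 h2 hsl hrr hG0 g1 hm
          (by norm_num) (by norm_num) (by norm_num) (by norm_num) (by norm_num) (by norm_num)
          (by norm_num) (by norm_num) (by norm_num) (by norm_num) (by norm_num)
          (Or.inr (by norm_num)) (by norm_num) (Or.inl (by norm_num))
          (by norm_num) (by norm_num) (by norm_num) (by norm_num) (by norm_num) (by norm_num) (by norm_num)
          (Or.inr (by norm_num)) (by norm_num) (by norm_num) (by norm_num) (by norm_num) (by norm_num) (by norm_num) (by norm_num)

lemma seg18 {lam th : ℝ} (hl : 0 < lam) (h0 : (138 / 125) ≤ th) (h1 : th ≤ (692 / 625))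
    (h2 : th < π / 2) (hsl : sinh lam < sin th) (hrr : 163 / 400 ≤ rr lam th)
    (hG0 : 0 ≤ Gf lam th) :
    Tg 1.69 lam th (lam / th * (π + th)) ∨ Tg 1.69 lam th (Gf lam th) := by
  have hm := mu_top (t0 := (138 / 125)) (t1 := (692 / 625)) (s1 := (17897 / 20000)) (mt := (811 / 1000)) hl
    (by norm_num) h0 h1 h2 hsl (by norm_num) (by norm_num) (by norm_num)
  rcases le_total (lam / th) (47 / 125) with h | h
  · left
    exact boxP1 (t0 := (138 / 125)) (t1 := (692 / 625)) (47 / 125) (893 / 1000) (45003 / 100000) (44711 / 100000) (6433 / 6250) (18361 / 100000) (25407 / 10000) (31951 / 20000)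
      hl (by norm_num) h0 h1 h2 h
      (by norm_num) (by norm_num) (by norm_num) (by norm_num) (by norm_num) (by norm_num) (by norm_num)
      (by norm_num) (by norm_num) (by norm_num) (by norm_num) (by norm_num) (by norm_num) (by norm_num)
  · right
    rcases le_total (lam / th) (56 / 125) with g0 | g0
    · exact boxP2 (t0 := (138 / 125)) (t1 := (692 / 625)) (47 / 125) (56 / 125) (893 / 1000) (17897 / 20000) (45003 / 100000) (44711 / 100000) (5209 / 5000) (3647 / 20000) (5341 / 20000) (163 / 400) (113933 / 100000) (35401 / 20000) (126679 / 50000) (128993 / 50000) 0 (226693 / 100000) (18751 / 12500)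
        hl (by norm_num) h0 h1 h2 hsl hrr hG0 h g0
        (by norm_num) (by norm_num) (by norm_num) (by norm_num) (by norm_num) (by norm_num)
        (by norm_num) (by norm_num) (by norm_num) (by norm_num) (by norm_num)
        (Or.inl (by norm_num)) (by norm_num) (Or.inr (by norm_num))
        (by norm_num) (by norm_num) (by norm_num) (by norm_num) (by norm_num) (by norm_num) (by norm_num)
        (Or.inl (by norm_num)) (by norm_num) (by norm_num) (by norm_num) (by norm_num) (by norm_num) (by norm_num) (by norm_num)
    · skip
      rcases le_total (lam / th) (121 / 200) with g1 | g1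
      · exact boxP2 (t0 := (138 / 125)) (t1 := (692 / 625)) (56 / 125) (121 / 200) (893 / 1000) (17897 / 20000) (45003 / 100000) (44711 / 100000) (5387 / 5000) (26497 / 100000) (26043 / 50000) (46487 / 100000) (869 / 800) (171271 / 100000) (12701 / 5000) 0 (692 / 625) (182241 / 100000) (130597 / 100000)
          hl (by norm_num) h0 h1 h2 hsl hrr hG0 g0 g1
          (by norm_num) (by norm_num) (by norm_num) (by norm_num) (by norm_num) (by norm_num)
          (by norm_num) (by norm_num) (by norm_num) (by norm_num) (by norm_num)
          (Or.inl (by norm_num)) (by norm_num) (Or.inl (by norm_num))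
          (by norm_num) (by norm_num) (by norm_num) (by norm_num) (by norm_num) (by norm_num) (by norm_num)
          (Or.inr (by norm_num)) (by norm_num) (by norm_num) (by norm_num) (by norm_num) (by norm_num) (by norm_num) (by norm_num)
      · skip
        exact boxP2 (t0 := (138 / 125)) (t1 := (692 / 625)) (121 / 200) (811 / 1000) (893 / 1000) (17897 / 20000) (45003 / 100000) (44711 / 100000) (114283 / 100000) (12873 / 25000) (20019 / 25000) (35741 / 50000) (11527 / 12500) (38451 / 25000) (4869 / 2000) 0 (692 / 625) (159297 / 100000) (36403 / 50000)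
          hl (by norm_num) h0 h1 h2 hsl hrr hG0 g1 hm
          (by norm_num) (by norm_num) (by norm_num) (by norm_num) (by norm_num) (by norm_num)
          (by norm_num) (by norm_num) (by norm_num) (by norm_num) (by norm_num)
          (Or.inr (by norm_num)) (by norm_num) (Or.inl (by norm_num))
          (by norm_num) (by norm_num) (by norm_num) (by norm_num) (by norm_num) (by norm_num) (by norm_num)
          (Or.inr (by norm_num)) (by norm_num) (by norm_num) (by norm_num) (by norm_num) (by norm_num) (by norm_num) (by norm_num)

end Pool.Agent.M4.Cov
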