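import Pool.Agent.helper26.M4.CovD1
import Pool.Agent.helper26.M4.CovD2
import Pool.Agent.helper26.M4.CovD3
import Pool.Agent.helper26.M4.CovD4

/-!
# Project M4, block II, row COV: `R2_stmt`
-/

set_option autoImplicit false

namespace Pool.Agent.M4.Cov

open Real Pool.Agent.M4.Fn

theorem R2 : R2_stmt := by
  intro lam th hl h0 h2 h5 hsl hrr hG0
  have hmax : th ≤ 692 / 625 := by
    by_contra hcon
    push Not at hcon
    have hcos : 0 < cos th := cos_pos_of_mem_Ioo ⟨by linarith [pi_pos], h2⟩
    have a1 := cos_hi (x := 692 / 625) (by norm_num)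
    have a2 : cos th ≤ cos (692 / 625) := by
      apply cos_le_cos_of_nonneg_of_le_pi
      · norm_num
      · linarith [pi_pos]
      · exact hcon.le
    have a3 : cos th ≤ 0.4472 := by
      refine (a2.trans a1).trans ?_
      norm_num
    norm_num at a3
    nlinarith
  rcases le_total th (77 / 125) with h | h
  · exact seg1 hl h0 h h2 hsl hrr hG0
  have g := h
  clear h
  rcases le_total th (633 / 1000) with h | h
  · exact seg2 hl g h h2 hsl hrr hG0
  have g := h
  clear h
  rcases le_total th (163 / 250) with h | h
  · exact seg3 hl g h h2 hsl hrr hG0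
  have g := h
  clear h
  rcases le_total th (673 / 1000) with h | h
  · exact seg4 hl g h h2 hsl hrr hG0
  have g := h
  clear h
  rcases le_total th (697 / 1000) with h | h
  · exact seg5 hl g h h2 hsl hrr hG0
  have g := h
  clear h
  rcases le_total th (181 / 250) with h | h
  · exact seg6 hl g h h2 hsl hrr hG0
  have g := h
  clear h
  rcases le_total th (151 / 200) with h | h
  · exact seg7 hl g h h2 hsl hrr hG0
  have g := h
  clear h
  rcases le_total th (789 / 1000) with h | h
  · exact seg8 hl g h h2 hsl hrr hG0
  have g := h
  clear h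
  rcases le_total th (413 / 500) with h | h
  · exact seg9 hl g h h2 hsl hrr hG0
  have g := h
  clear h
  rcases le_total th (857 / 1000) with h | h
  · exact seg10 hl g h h2 hsl hrr hG0
  have g := h
  clear h
  rcases le_total th (901 / 1000) with h | h
  · exact seg11 hl g h h2 hsl hrr hG0
  have g := h
  clear h
  rcases le_total th (943 / 1000) with h | h
  · exact seg12 hl g h h2 hsl hrr hG0
  have g := h
  clear h
  rcases le_total th (979 / 1000) with h | h
  · exact seg13 hl g h h2 hsl hrr hG0
  have g := h
  clear h
  rcases le_total th (128 / 125) with h | h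
  · exact seg14 hl g h h2 hsl hrr hG0
  have g := h
  clear h
  rcases le_total th (1061 / 1000) with h | h
  · exact seg15 hl g h h2 hsl hrr hG0
  have g := h
  clear h
  rcases le_total th (1087 / 1000) with h | h
  · exact seg16 hl g h h2 hsl hrr hG0
  have g := h
  clear h
  rcases le_total th (138 / 125) with h | h
  · exact seg17 hl g h h2 hsl hrr hG0
  have g := h
  clear h
  exact seg18 hl g hmax h2 hsl hrr hG0

end Pool.Agent.M4.Cov
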