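import Pool.Agent.helper26.M4.Fn

/-!
# Project M4, block II, row COV: the bound of the creation offset

`lam > 0`, `0 < th < pi/2`, `5 cos th^2 >= 1`, `sinh lam < sin th`, `rho = sinh lam^2 + cos th^2`,
`a = sqrt rho`.  The creation inequality
`cosh lam cosh X - sin th sinh X - cos th cos psi - sinh lam sin psi < sinh lam^2 + sin th^2`
reads `a cosh y - a cos x < st` with `y = X - arsinh(sin th/a)`, `x = psi - arctan(sinh lam/cos th)`.
-/

set_option autoImplicit false

namespace Pool.Agent.M4.Cov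

open Real Pool.Agent.M4.Fn

/-- `rho`. -/
noncomputable def rr (lam th : ℝ) : ℝ := sinh lam ^ 2 + cos th ^ 2

/-- `|sinh tau|^2`. -/
noncomputable def ss (lam th : ℝ) : ℝ := sinh lam ^ 2 + sin th ^ 2

/-- The upper bound of the creation offset. -/
noncomputable def Zf (lam th : ℝ) : ℝ :=
  arsinh (sin th / √(rr lam th)) + lam / th * arctan (sinh lam / cos th) +
    √(2 / √(rr lam th)) * (sin th + (sinh lam ^ 2 + lam ^ 2) / (2 * sin th))

/-- The upper bound of `2 H` for the first zero. -/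
noncomputable def Gf (lam th : ℝ) : ℝ := Zf lam th - lam / th * (2 * π - th)

/-- Target inequality for the exponent `g`. -/
def Tg (k lam th g : ℝ) : Prop := 2 * rr lam th * (cosh g - cos th) < k * ss lam th

def R1_stmt : Prop := ∀ lam th : ℝ, 0 < lam → 0 < th → th ≤ 3 / 5 → sinh lam < sin th →
  0 ≤ Gf lam th → Tg 1.834 lam th (lam / th * (π + th)) ∨ Tg 1.834 lam th (Gf lam th)

def R2_stmt : Prop := ∀ lam th : ℝ, 0 < lam → 3 / 5 ≤ th → th < π / 2 → 1 ≤ 5 * cos th ^ 2 →
  sinh lam < sin th → 163 / 400 ≤ rr lam th →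
  0 ≤ Gf lam th → Tg 1.69 lam th (lam / th * (π + th)) ∨ Tg 1.69 lam th (Gf lam th)

/-! ## Lemma B -/

/-- chord bound: `sin y / y` at least `sin th / th` on `[-th, th]`. -/
lemma sin_chord {th y : ℝ} (h0 : 0 < th) (h1 : th < π / 2) (hy : |y| ≤ th) :
    y ^ 2 * (sin th ^ 2 / th ^ 2) ≤ sin y ^ 2 := by
  have hs : 0 < sin th := sin_pos_of_pos_of_lt_pi h0 (by linarith [pi_pos])
  have key : ∀ z : ℝ, 0 ≤ z → z ≤ th → z * (sin th / th) ≤ sin z := by
    intro z hz0 hz1
    have hz2 : 0 ≤ 1 - z / th := by rw [sub_nonneg, div_le_one h0]; exact hz1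
    have hz3 : 0 ≤ z / th := by positivity
    have hc := strictConcaveOn_sin_Icc.concaveOn.2
      (⟨le_rfl, pi_pos.le⟩ : (0 : ℝ) ∈ Set.Icc 0 π)
      (⟨h0.le, by linarith [pi_pos]⟩ : th ∈ Set.Icc 0 π) hz2 hz3 (by ring)
    simp only [smul_eq_mul, mul_zero, zero_add, sin_zero] at hc
    have e : z / th * th = z := by field_simp
    rw [e] at hc
    calc z * (sin th / th) = z / th * sin th := by ring
      _ ≤ sin z := hc
  have h2 := key |y| (abs_nonneg y) hy
  have h3 : sin y ^ 2 = sin |y| ^ 2 := by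
    rcases abs_cases y with ⟨h, _⟩ | ⟨h, _⟩
    · rw [h]
    · rw [h, sin_neg]; ring
  have h4 : y ^ 2 * (sin th ^ 2 / th ^ 2) = (|y| * (sin th / th)) ^ 2 := by
    rw [mul_pow, sq_abs, div_pow]
  rw [h3, h4]
  have : 0 ≤ |y| * (sin th / th) := by positivity
  exact pow_le_pow_left₀ this h2 2

/-- The quadratic part: `cosh y - cos x < p` with `|x| <= 2 th`. -/
lemma quad {th x y p mu : ℝ} (h0 : 0 < th) (h1 : th < π / 2) (hx : |x| ≤ 2 * th)
    (h : cosh y - cos x < p) :
    (y + mu * x) ^ 2 < 2 * p * (1 + mu ^ 2 * th ^ 2 / sin th ^ 2) := by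
  have hs : 0 < sin th := sin_pos_of_pos_of_lt_pi h0 (by linarith [pi_pos])
  have hc : 1 + y ^ 2 / 2 ≤ cosh y := by
    have := cosh_ge2 |y| (abs_nonneg y)
    rw [cosh_abs, sq_abs] at this
    linarith
  have hy2 : |x / 2| ≤ th := by
    rw [abs_div, abs_two]; linarith
  have h2 := sin_chord h0 h1 hy2
  have h3 : cos x = 1 - 2 * sin (x / 2) ^ 2 := by
    have := cos_two_mul (x / 2)
    have h5 := sin_sq_add_cos_sq (x / 2)
    rw [show 2 * (x / 2) = x by ring] at this
    linarith
  set k : ℝ := sin th ^ 2 / th ^ 2 with hk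
  have hk0 : 0 < k := by positivity
  have h4 : y ^ 2 / 2 + x ^ 2 * k / 2 < p := by
    rw [h3] at h
    nlinarith
  have h5 : mu ^ 2 * th ^ 2 / sin th ^ 2 = mu ^ 2 / k := by
    rw [hk]; field_simp
  rw [h5]
  have h6 : (y + mu * x) ^ 2 ≤ 2 * (y ^ 2 / 2 + x ^ 2 * k / 2) * (1 + mu ^ 2 / k) := by
    have : 2 * (y ^ 2 / 2 + x ^ 2 * k / 2) * (1 + mu ^ 2 / k) - (y + mu * x) ^ 2
        = (mu * y - k * x) ^ 2 / k := by
      field_simp; ring
    have h7 : 0 ≤ (mu * y - k * x) ^ 2 / k := by positivity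
    linarith
  have h8 : 0 < 1 + mu ^ 2 / k := by positivity
  calc (y + mu * x) ^ 2 ≤ 2 * (y ^ 2 / 2 + x ^ 2 * k / 2) * (1 + mu ^ 2 / k) := h6
    _ < 2 * p * (1 + mu ^ 2 / k) := by
      apply mul_lt_mul_of_pos_right _ h8; linarith

section
variable {lam th X psi : ℝ}

lemma rr_pos (hc : 0 < cos th) : 0 < rr lam th := by
  unfold rr; positivity

/-- LEMMA B. -/
theorem lemB (hl : 0 < lam) (h0 : 0 < th) (h1 : th < π / 2) (h5 : 1 ≤ 5 * cos th ^ 2)
    (hs : sinh lam < sin th) (hr : 163 / 400 ≤ rr lam th) (hp0 : -th < psi) (hp1 : psi < π)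
    (C : cosh lam * cosh X - sin th * sinh X - cos th * cos psi - sinh lam * sin psi <
      ss lam th) :
    X + psi * lam / th < Zf lam th := by
  have hsin : 0 < sin th := sin_pos_of_pos_of_lt_pi h0 (by linarith [pi_pos])
  have hcos : 0 < cos th := cos_pos_of_mem_Ioo ⟨by linarith [pi_pos], h1⟩
  have hsl : 0 < sinh lam := sinh_pos_iff.mpr hl
  have hsc := sin_sq_add_cos_sq th
  have hrr := rr_pos (lam := lam) hcos
  set a : ℝ := √(rr lam th) with ha
  have ha0 : 0 < a := sqrt_pos.mpr hrr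
  have ha2 : a ^ 2 = sinh lam ^ 2 + cos th ^ 2 := by
    rw [ha, sq_sqrt hrr.le]; rfl
  have hS : sinh lam ^ 2 < sin th ^ 2 := by
    apply pow_lt_pow_left₀ hs hsl.le (by norm_num)
  have ha1 : a < 1 := by nlinarith
  have ha06 : 3 / 5 ≤ a := by
    have : (3 / 5 : ℝ) ^ 2 ≤ a ^ 2 := by
      rw [ha2]; unfold rr at hr; linarith
    exact (pow_le_pow_iff_left₀ (by norm_num) ha0.le two_ne_zero).mp this
  -- the two angles
  set e0 : ℝ := arsinh (sin th / a) with he0
  set f0 : ℝ := arctan (sinh lam / cos th) with hf0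
  have hse : a * sinh e0 = sin th := by
    rw [he0, sinh_arsinh]; field_simp
  have hch : cosh lam ^ 2 = 1 + sinh lam ^ 2 := by
    have := cosh_sq lam; linarith
  have hce : a * cosh e0 = cosh lam := by
    have h2 : (a * cosh e0) ^ 2 = cosh lam ^ 2 := by
      have h3 : cosh e0 ^ 2 = 1 + sinh e0 ^ 2 := by have := cosh_sq e0; linarith
      rw [mul_pow, h3, hch]
      have h4 : a ^ 2 * sinh e0 ^ 2 = sin th ^ 2 := by rw [← mul_pow, hse]
      nlinarith
    exact (pow_left_inj₀ (by positivity) (by positivity) (by norm_num)).mp h2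
  have hcf : a * cos f0 = cos th := by
    have h2 : cos f0 = 1 / √(1 + (sinh lam / cos th) ^ 2) := by rw [hf0, cos_arctan]
    have h3 : √(1 + (sinh lam / cos th) ^ 2) = a / cos th := by
      have h4 : 1 + (sinh lam / cos th) ^ 2 = (a / cos th) ^ 2 := by
        rw [div_pow, div_pow, ha2]; field_simp; ring
      rw [h4, sqrt_sq (by positivity)]
    rw [h2, h3]; field_simp
  have hsf : a * sin f0 = sinh lam := by
    have h2 : tan f0 = sinh lam / cos th := by rw [hf0, tan_arctan]
    have hcf0 : cos f0 ≠ 0 := by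
      intro h; rw [h] at hcf; simp at hcf; exact hcos.ne hcf
    have h3 : sin f0 = tan f0 * cos f0 := by rw [tan_mul_cos hcf0]
    rw [h3, h2]
    calc a * (sinh lam / cos th * cos f0) = sinh lam / cos th * (a * cos f0) := by ring
      _ = sinh lam := by rw [hcf]; field_simp
  -- f0 in (0, th)
  have hf0p : 0 < f0 := by
    rw [hf0, ← arctan_zero]; exact arctan_strictMono (by positivity)
  have hf0t : f0 < th := by
    have h2 : arctan (tan th) = th := arctan_tan (by linarith [pi_pos]) h1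
    have h3 : f0 < arctan (tan th) := by
      rw [hf0]
      apply arctan_strictMono
      rw [tan_eq_sin_div_cos]
      exact div_lt_div_of_pos_right hs hcos
    linarith
  -- the reduced inequality
  set y : ℝ := X - e0 with hy
  set x : ℝ := psi - f0 with hx
  have hA : a * cosh y = cosh lam * cosh X - sin th * sinh X := by
    rw [hy, cosh_sub, ← hce, ← hse]; ring
  have hB : a * cos x = cos th * cos psi + sinh lam * sin psi := by
    rw [hx, cos_sub, ← hcf, ← hsf]; ring
  set p : ℝ := ss lam th / a with hp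
  have hss : ss lam th = a ^ 2 - 1 + 2 * sin th ^ 2 := by
    unfold ss; rw [ha2]; linarith
  have hC : cosh y - cos x < p := by
    rw [hp, lt_div_iff₀ ha0]
    have : (cosh y - cos x) * a = a * cosh y - a * cos x := by ring
    rw [this, hA, hB]; linarith
  -- p <= 2 sin^2
  have hp2 : p ≤ 2 * sin th ^ 2 := by
    rw [hp, div_le_iff₀ ha0, hss]
    have h2 : 2 * sin th ^ 2 ≤ 1 + a := by nlinarith
    nlinarith
  have hcosx : cos (2 * th) < cos x := by
    have h2 : cos (2 * th) = 1 - 2 * sin th ^ 2 := by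
      have := cos_two_mul th; linarith
    have h3 := one_le_cosh y
    linarith
  have hxabs : |x| ≤ 2 * th := by
    rw [abs_le]
    constructor
    · rw [hx]; linarith
    · by_contra hcon
      push Not at hcon
      have h2 : cos x ≤ cos (2 * th) := by
        apply cos_le_cos_of_nonneg_of_le_pi (by linarith) _ hcon.le
        rw [hx]; linarith
      linarith
  have hq := quad (mu := lam / th) h0 h1 hxabs hC
  -- the square root
  set W : ℝ := √(2 / a) * (sin th + (sinh lam ^ 2 + lam ^ 2) / (2 * sin th)) with hW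
  have hW0 : 0 ≤ W := by positivity
  have hW2 : (y + lam / th * x) ^ 2 < W ^ 2 := by
    have e1 : W ^ 2 = 2 / a * (sin th + (sinh lam ^ 2 + lam ^ 2) / (2 * sin th)) ^ 2 := by
      rw [hW, mul_pow, sq_sqrt (by positivity)]
    have e2 : 2 * p * (1 + (lam / th) ^ 2 * th ^ 2 / sin th ^ 2) =
        2 / a * ((sinh lam ^ 2 + sin th ^ 2) * (sin th ^ 2 + lam ^ 2) / sin th ^ 2) := by
      rw [hp]; unfold ss; field_simp
    rw [e2] at hq
    refine hq.trans_le ?_
    rw [e1]
    apply mul_le_mul_of_nonneg_left _ (by positivity)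
    rw [div_le_iff₀ (by positivity)]
    have e3 : (sin th + (sinh lam ^ 2 + lam ^ 2) / (2 * sin th)) ^ 2 * sin th ^ 2 =
        ((sin th ^ 2 + (sinh lam ^ 2 + lam ^ 2) / 2)) ^ 2 := by
      field_simp
    rw [e3]
    nlinarith [sq_nonneg (sinh lam ^ 2 - lam ^ 2)]
  have hlt : y + lam / th * x < W := by
    exact lt_of_pow_lt_pow_left₀ 2 hW0 hW2
  have e : X + psi * lam / th = e0 + lam / th * f0 + (y + lam / th * x) := by
    rw [hy, hx]; ring
  rw [e]
  unfold Zf
  linarith

end

/-! ## The reduction -/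

lemma Tg_mono {k lam th g g' : ℝ} (hc : 0 < cos th) (h : Tg k lam th g') (h0 : |g| ≤ |g'|) :
    Tg k lam th g := by
  unfold Tg at *
  have hr := rr_pos (lam := lam) hc
  have h2 : cosh g ≤ cosh g' := cosh_le_cosh.mpr h0
  have h3 : 2 * rr lam th * (cosh g - cos th) ≤ 2 * rr lam th * (cosh g' - cos th) := by
    apply mul_le_mul_of_nonneg_left _ (by positivity); linarith
  linarith

lemma Tg_iff {k lam th H : ℝ} : Tg k lam th (2 * H) ↔
    4 * rr lam th * (sinh H ^ 2 + sin (th / 2) ^ 2) < k * ss lam th := by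
  unfold Tg
  have h1 : cosh (2 * H) = 1 + 2 * sinh H ^ 2 := by
    have := cosh_two_mul H
    have h := cosh_sq H
    linarith
  have h2 : cos th = 1 - 2 * sin (th / 2) ^ 2 := by
    have := cos_two_mul (th / 2)
    have h5 := sin_sq_add_cos_sq (th / 2)
    rw [show 2 * (th / 2) = th by ring] at this
    linarith
  rw [h1, h2]
  constructor <;> intro h <;> nlinarith

/-- nearest multiple -/
lemma nearest {B D : ℝ} (hD : 0 < D) (hB : 0 ≤ B) : ∃ m : ℕ, |B - m * D| ≤ D / 2 := by
  refine ⟨⌊B / D + 1 / 2⌋₊, ?_⟩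
  have h0 : 0 ≤ B / D + 1 / 2 := by positivity
  have h1 := Nat.floor_le h0
  have h2 := Nat.lt_floor_add_one (B / D + 1 / 2)
  set n : ℝ := (⌊B / D + 1 / 2⌋₊ : ℝ)
  have e : B / D * D = B := by field_simp
  rw [abs_le]
  constructor
  · have : n * D ≤ (B / D + 1 / 2) * D := by gcongr
    nlinarith
  · have : (B / D + 1 / 2) * D < (n + 1) * D := by gcongr
    nlinarith

/-- COV from R1 and R2. -/
theorem cov_of (R1 : R1_stmt) (R2 : R2_stmt) {lam th X psi A : ℝ} (hl : 0 < lam) (h0 : 0 < th)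
    (h1 : th < π / 2) (h5 : 1 ≤ 5 * cos th ^ 2)
    (hs : sinh lam < sin th) (hr : 163 / 400 ≤ rr lam th) (hp0 : -th < psi) (hp1 : psi < π)
    (C : cosh lam * cosh X - sin th * sinh X - cos th * cos psi - sinh lam * sin psi <
      ss lam th)
    (hA : A = (X + psi * lam / th) / 2) (hA0 : 0 ≤ A - π * lam / th) :
    ∃ m : ℕ, 4 * rr lam th * (sinh (|A - (m + 1) * (π * lam / th)| + lam / 2) ^ 2 +
      sin (th / 2) ^ 2) < (if th ≤ 3 / 5 then 1.834 else 1.69) * ss lam th := by
  have hcos : 0 < cos th := cos_pos_of_mem_Ioo ⟨by linarith [pi_pos], h1⟩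
  have hB := lemB hl h0 h1 h5 hs hr hp0 hp1 C
  set D : ℝ := π * lam / th with hD
  have hD0 : 0 < D := by positivity
  have hG : 2 * (A - D) + lam < Gf lam th := by
    unfold Gf
    have e : 2 * (A - D) + lam = X + psi * lam / th - lam / th * (2 * π - th) := by
      rw [hA, hD]; field_simp; ring
    rw [e]; linarith
  have hG0 : 0 ≤ Gf lam th := by linarith
  set k : ℝ := (if th ≤ 3 / 5 then 1.834 else 1.69) with hk
  have hmain : Tg k lam th (lam / th * (π + th)) ∨ Tg k lam th (Gf lam th) := by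
    by_cases ht : th ≤ 3 / 5
    · rw [hk, if_pos ht]; exact R1 lam th hl h0 ht hs hG0
    · rw [hk, if_neg ht]; exact R2 lam th hl (le_of_lt (not_le.mp ht)) h1 h5 hs hr hG0
  rcases hmain with h | h
  · obtain ⟨m, hm⟩ := nearest hD0 hA0
    refine ⟨m, ?_⟩
    have e1 : A - (m + 1) * D = A - D - m * D := by ring
    rw [e1]
    apply Tg_iff.mp
    apply Tg_mono hcos h
    have e2 : lam / th * (π + th) = D + lam := by rw [hD]; field_simp
    rw [e2, abs_of_nonneg (by positivity : 0 ≤ 2 * (|A - D - m * D| + lam / 2)),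
      abs_of_nonneg (by positivity : 0 ≤ D + lam)]
    linarith
  · refine ⟨0, ?_⟩
    have e1 : A - (((0 : ℕ) : ℝ) + 1) * D = A - D := by push_cast; ring
    rw [e1, abs_of_nonneg hA0]
    apply Tg_iff.mp
    apply Tg_mono hcos h
    rw [abs_of_nonneg (by positivity), abs_of_nonneg hG0]
    linarith

end Pool.Agent.M4.Cov
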