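import Pool.Agent.helper26.M4.CovB

/-!
# Project M4, block II, row COV: the box lemmas for `3/5 <= th`
-/

set_option autoImplicit false

namespace Pool.Agent.M4.Cov

open Real Pool.Agent.M4.Fn

lemma sinh_hi1 {x : ℝ} (hx : 0 ≤ x) (h : x ≤ 1) :
    sinh x ≤ x * (1 + x ^ 2 / 6 + x ^ 4 / 77) := by
  have h1 : cosh x ≤ 120 / 77 := by
    have h1 := cosh_hi hx (by linarith)
    have h2 : x ^ 2 ≤ 1 := pow_le_one₀ hx h
    have h4 : x ^ 4 ≤ 1 := pow_le_one₀ hx h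
    have h6 : x ^ 6 ≤ 1 := pow_le_one₀ hx h
    linarith
  have h2 := H5 x hx
  have h3 : x ^ 5 / 120 * cosh x ≤ x ^ 5 / 120 * (120 / 77) := by gcongr
  have h4 : x * (1 + x ^ 2 / 6 + x ^ 4 / 77) = x + x ^ 3 / 6 + x ^ 5 / 120 * (120 / 77) := by ring
  rw [h4]
  linarith

lemma arctan_le_self' {x : ℝ} (hx : 0 ≤ x) : arctan x ≤ x := by
  have h := le_tan (arctan_nonneg.mpr hx) (arctan_lt_pi_div_two x)
  rwa [tan_arctan] at h

/-- `cosh x ≤ 2.6` for `x ≤ 8/5`. -/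
lemma cosh_le_26 {x : ℝ} (hx : 0 ≤ x) (h : x ≤ 8 / 5) : cosh x ≤ 2.6 := by
  have h1 : cosh x ≤ cosh (8 / 5) := by
    rw [cosh_le_cosh, abs_of_nonneg hx, abs_of_nonneg (by norm_num)]; exact h
  have h2 := H8 (8 / 5) (by norm_num)
  have h3 : cosh (8 / 5) ≤ 2.6 := by
    norm_num at h2 ⊢
    linarith
  exact h1.trans h3

lemma cosh_hi16 {x : ℝ} (hx : 0 ≤ x) (h : x ≤ 8 / 5) :
    cosh x ≤ 1 + x ^ 2 / 2 + x ^ 4 / 24 + x ^ 6 / 600 := by
  have h1 := cosh_le_26 hx h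
  have h2 := H8 x hx
  have h3 : x ^ 8 / 40320 * cosh x ≤ x ^ 8 / 40320 * 2.6 := by gcongr
  have h4 : x ^ 8 ≤ x ^ 6 * (64 / 25) := by
    have : x ^ 2 ≤ 64 / 25 := by nlinarith
    calc x ^ 8 = x ^ 6 * x ^ 2 := by ring
      _ ≤ x ^ 6 * (64 / 25) := by gcongr
  have h5 : 0 ≤ x ^ 6 := by positivity
  have h6 : x ^ 8 / 40320 * 2.6 ≤ x ^ 6 * (64 / 25) / 40320 * 2.6 := by gcongr
  have h7 : x ^ 6 / 720 + x ^ 6 * (64 / 25) / 40320 * 2.6 ≤ x ^ 6 / 600 := by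
    have : x ^ 6 / 720 + x ^ 6 * (64 / 25) / 40320 * 2.6 = x ^ 6 * (1 / 720 + 64 / 25 / 40320 * 2.6) := by
      ring
    rw [this]
    have h8 : (1 / 720 + 64 / 25 / 40320 * 2.6 : ℝ) ≤ 1 / 600 := by norm_num
    calc x ^ 6 * (1 / 720 + 64 / 25 / 40320 * 2.6) ≤ x ^ 6 * (1 / 600) := by gcongr
      _ = x ^ 6 / 600 := by ring
  linarith

lemma ratio {r0 S S0 S1 s0 c0 s c : ℝ} (hr0 : 0 ≤ r0) (h0 : S0 ≤ S) (h1 : S ≤ S1)
    (hs0 : 0 ≤ s0) (hs : s0 ≤ s) (hc : 0 ≤ c) (hc0 : c ≤ c0)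
    (e0 : r0 * (S0 + c0 ^ 2) ≤ S0 + s0 ^ 2) (e1 : r0 * (S1 + c0 ^ 2) ≤ S1 + s0 ^ 2) :
    r0 * (S + c ^ 2) ≤ S + s ^ 2 := by
  have a1 : c ^ 2 ≤ c0 ^ 2 := by gcongr
  have a2 : s0 ^ 2 ≤ s ^ 2 := by gcongr
  have a3 : r0 * (S + c ^ 2) ≤ r0 * (S + c0 ^ 2) := by gcongr
  have a4 : r0 * (S + c0 ^ 2) ≤ S + s0 ^ 2 := by
    rcases le_total r0 1 with h | h
    · nlinarith
    · nlinarith
  linarith

lemma Tg_of {lam th g' g c1 r0 : ℝ} (hc : 0 < cos th) (hg0 : 0 ≤ g') (hg : g' ≤ g)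
    (hg1 : g ≤ 8 / 5) (hc1 : c1 ≤ cos th) (hr : r0 * rr lam th ≤ ss lam th)
    (hfin : 1 + g ^ 2 / 2 + g ^ 4 / 24 + g ^ 6 / 600 < c1 + 0.845 * r0) :
    Tg 1.69 lam th g' := by
  have hrr := rr_pos (lam := lam) hc
  have h1 : cosh g' ≤ cosh g := by
    rw [cosh_le_cosh, abs_of_nonneg hg0, abs_of_nonneg (hg0.trans hg)]; exact hg
  have h2 := cosh_hi16 (hg0.trans hg) hg1
  have h3 : cosh g' - cos th < 0.845 * r0 := by linarith
  unfold Tg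
  calc 2 * rr lam th * (cosh g' - cos th) < 2 * rr lam th * (0.845 * r0) := by
        apply mul_lt_mul_of_pos_left h3 (by positivity)
    _ = 1.69 * (r0 * rr lam th) := by ring
    _ ≤ 1.69 * ss lam th := by
        apply mul_le_mul_of_nonneg_left hr (by norm_num)

section
variable {lam th t0 t1 : ℝ}

/-- the trigonometric data of an interval -/
lemma trig {s0 s1 c0 c1 : ℝ} (ht0 : 0 < t0) (h0 : t0 ≤ th) (h1 : th ≤ t1) (h2 : th < π / 2)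
    (ht1 : t1 < 1.5)
    (hs0 : s0 ≤ t0 - t0 ^ 3 / 6 + t0 ^ 5 / 120 - t0 ^ 7 / 5040)
    (hs1 : t1 - t1 ^ 3 / 6 + t1 ^ 5 / 120 ≤ s1)
    (hc0 : 1 - t0 ^ 2 / 2 + t0 ^ 4 / 24 - t0 ^ 6 / 720 + t0 ^ 8 / 40320 ≤ c0)
    (hc1 : c1 ≤ 1 - t1 ^ 2 / 2 + t1 ^ 4 / 24 - t1 ^ 6 / 720) :
    s0 ≤ sin th ∧ sin th ≤ s1 ∧ cos th ≤ c0 ∧ c1 ≤ cos th := by
  have hpi := pi_gt_d2
  have hpi0 := pi_pos
  refine ⟨?_, ?_, ?_, ?_⟩
  · have a1 := sin_lo ht0.le
    have a2 : sin t0 ≤ sin th := by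
      apply sin_le_sin_of_le_of_le_pi_div_two <;> linarith
    linarith
  · have a1 := sin_hi (x := t1) (by linarith)
    have a2 : sin th ≤ sin t1 := by
      apply sin_le_sin_of_le_of_le_pi_div_two
      · linarith
      · norm_num at *; linarith
      · exact h1
    linarith
  · have a1 := cos_hi ht0.le
    have a2 : cos th ≤ cos t0 := by
      apply cos_le_cos_of_nonneg_of_le_pi <;> linarith
    linarith
  · have a1 := cos_lo (x := t1) (by linarith)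
    have a2 : cos t1 ≤ cos th := by
      apply cos_le_cos_of_nonneg_of_le_pi
      · linarith
      · norm_num at *; linarith
      · exact h1
    linarith

/-- BOX LEMMA P1. -/
theorem boxP1 (m s0 c0 c1 K S1 r0 g : ℝ) (hl : 0 < lam) (ht0 : 0 < t0) (h0 : t0 ≤ th)
    (h1 : th ≤ t1) (h2 : th < π / 2) (hm : lam / th ≤ m)
    (ht1 : t1 < 1.5) (hs0p : 0 ≤ s0)
    (hs0 : s0 ≤ t0 - t0 ^ 3 / 6 + t0 ^ 5 / 120 - t0 ^ 7 / 5040)
    (hc0 : 1 - t0 ^ 2 / 2 + t0 ^ 4 / 24 - t0 ^ 6 / 720 + t0 ^ 8 / 40320 ≤ c0)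
    (hc1 : c1 ≤ 1 - t1 ^ 2 / 2 + t1 ^ 4 / 24 - t1 ^ 6 / 720)
    (hmt : m * t1 ≤ 1) (hK : 1 + (m * t1) ^ 2 / 6 + (m * t1) ^ 4 / 77 ≤ K)
    (hS1 : (K * (m * t1)) ^ 2 ≤ S1) (hr0 : 0 ≤ r0)
    (e0 : r0 * c0 ^ 2 ≤ s0 ^ 2) (e1 : r0 * (S1 + c0 ^ 2) ≤ S1 + s0 ^ 2)
    (hg : m * (3.1416 + t1) ≤ g) (hg1 : g ≤ 8 / 5)
    (hfin : 1 + g ^ 2 / 2 + g ^ 4 / 24 + g ^ 6 / 600 < c1 + 0.845 * r0) :
    Tg 1.69 lam th (lam / th * (π + th)) := by
  have hth : 0 < th := by linarith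
  have hcos : 0 < cos th := cos_pos_of_mem_Ioo ⟨by linarith [pi_pos], h2⟩
  obtain ⟨a1, -, a3, a4⟩ := trig ht0 h0 h1 h2 ht1 hs0 le_rfl hc0 hc1
  have hmu0 : 0 < lam / th := by positivity
  have hm0 : 0 < m := by linarith
  have hlam : lam ≤ m * t1 := by
    have e : lam = lam / th * th := by field_simp
    rw [e]; gcongr
  have hmt0 : 0 ≤ m * t1 := by linarith
  have hS : sinh lam ^ 2 ≤ S1 := by
    have b1 : sinh lam ≤ sinh (m * t1) := sinh_le_sinh.mpr hlam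
    have b2 := sinh_hi1 hmt0 hmt
    have b3 : m * t1 * (1 + (m * t1) ^ 2 / 6 + (m * t1) ^ 4 / 77) ≤ m * t1 * K := by gcongr
    have b4 : 0 ≤ sinh lam := (sinh_pos_iff.mpr hl).le
    calc sinh lam ^ 2 ≤ (K * (m * t1)) ^ 2 := by
          apply pow_le_pow_left₀ b4; linarith
      _ ≤ S1 := hS1
  have hrat := ratio (S := sinh lam ^ 2) (S0 := 0) (c := cos th) (s := sin th) hr0 (sq_nonneg _)
    hS hs0p a1 hcos.le a3 (by simpa using e0) e1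
  refine Tg_of hcos (by positivity) ?_ hg1 a4 hrat hfin
  have hpi := pi_lt_d4
  calc lam / th * (π + th) ≤ m * (3.1416 + t1) := by
        have := pi_pos
        gcongr
    _ ≤ g := hg

/-- BOX LEMMA P2. -/
theorem boxP2 (m0 m1 s0 s1 c0 c1 K S0 S1 A0 E P be F1 F2 r0 g : ℝ) (hl : 0 < lam)
    (ht0 : 0 < t0) (h0 : t0 ≤ th)
    (h1 : th ≤ t1) (h2 : th < π / 2) (hsl : sinh lam < sin th) (hrr : 163 / 400 ≤ rr lam th)
    (hG0 : 0 ≤ Gf lam th)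
    (hm0 : m0 ≤ lam / th) (hm1 : lam / th ≤ m1) (hm0p : 0 < m0)
    (ht1 : t1 < 1.5) (hs0p : 0 < s0) (hc1p : 0 < c1)
    (hs0 : s0 ≤ t0 - t0 ^ 3 / 6 + t0 ^ 5 / 120 - t0 ^ 7 / 5040)
    (hs1 : t1 - t1 ^ 3 / 6 + t1 ^ 5 / 120 ≤ s1)
    (hc0 : 1 - t0 ^ 2 / 2 + t0 ^ 4 / 24 - t0 ^ 6 / 720 + t0 ^ 8 / 40320 ≤ c0)
    (hc1 : c1 ≤ 1 - t1 ^ 2 / 2 + t1 ^ 4 / 24 - t1 ^ 6 / 720)
    (hmt : m1 * t1 ≤ 1) (hK : 1 + (m1 * t1) ^ 2 / 6 + (m1 * t1) ^ 4 / 77 ≤ K)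
    (hS0 : S0 ≤ (m0 * t0 + (m0 * t0) ^ 3 / 6) ^ 2)
    (hS1 : (K * (m1 * t1)) ^ 2 ≤ S1 ∨ s1 ^ 2 ≤ S1)
    (hA0p : 0 < A0) (hA0 : A0 ≤ S0 + c1 ^ 2 ∨ A0 ≤ 163 / 400)
    (hE0 : 0 ≤ E) (hE : s1 ^ 2 ≤ (E + E ^ 3 / 6 + E ^ 5 / 120) ^ 2 * A0)
    (hP0 : 0 ≤ P) (hP : 4 ≤ P ^ 4 * A0)
    (hbe : P * (K ^ 2 + 1) * t1 ^ 2 / (2 * s0) ≤ be)
    (hF1 : 0 ≤ F1) (hF2 : 0 ≤ F2) (hF : K * t1 / c1 ≤ F1 ∨ t1 ≤ F2)
    (hr0 : 0 ≤ r0)
    (e0 : r0 * (S0 + c0 ^ 2) ≤ S0 + s0 ^ 2) (e1 : r0 * (S1 + c0 ^ 2) ≤ S1 + s0 ^ 2)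
    (hg0 : E + P * s1 + (be + F1) * m0 ^ 2 + F2 * m0 - m0 * (2 * 3.1415 - t1) ≤ g)
    (hg1 : E + P * s1 + (be + F1) * m1 ^ 2 + F2 * m1 - m1 * (2 * 3.1415 - t1) ≤ g)
    (hg : g ≤ 8 / 5)
    (hfin : 1 + g ^ 2 / 2 + g ^ 4 / 24 + g ^ 6 / 600 < c1 + 0.845 * r0) :
    Tg 1.69 lam th (Gf lam th) := by
  have hth : 0 < th := by linarith
  have hcos : 0 < cos th := cos_pos_of_mem_Ioo ⟨by linarith [pi_pos], h2⟩
  have hsin : 0 < sin th := sin_pos_of_pos_of_lt_pi hth (by linarith [pi_pos])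
  obtain ⟨a1, a2, a3, a4⟩ := trig ht0 h0 h1 h2 ht1 hs0 hs1 hc0 hc1
  set mu : ℝ := lam / th with hmu
  have hmu0 : 0 < mu := by positivity
  have elam : lam = mu * th := by rw [hmu]; field_simp
  have hlam1 : lam ≤ mu * t1 := by rw [elam]; gcongr
  have hlam2 : lam ≤ m1 * t1 := hlam1.trans (by gcongr; linarith)
  have hlam0 : m0 * t0 ≤ lam := by rw [elam]; gcongr
  have hsl0 : 0 < sinh lam := sinh_pos_iff.mpr hl
  -- sinh lam <= K lam
  have hKlam : sinh lam ≤ K * lam := by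
    have b2 := sinh_hi1 hl.le (hlam2.trans hmt)
    have b3 : 1 + lam ^ 2 / 6 + lam ^ 4 / 77 ≤ K := by
      refine le_trans ?_ hK
      gcongr
    calc sinh lam ≤ lam * (1 + lam ^ 2 / 6 + lam ^ 4 / 77) := b2
      _ ≤ lam * K := by gcongr
      _ = K * lam := by ring
  have hK1 : 1 ≤ K := by
    refine le_trans ?_ hK
    have : 0 ≤ (m1 * t1) ^ 2 / 6 + (m1 * t1) ^ 4 / 77 := by positivity
    linarith
  have hSS0 : S0 ≤ sinh lam ^ 2 := by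
    refine hS0.trans ?_
    have b1 := sinh_lo3 (x := m0 * t0) (by positivity)
    have b2 : sinh (m0 * t0) ≤ sinh lam := sinh_le_sinh.mpr hlam0
    apply pow_le_pow_left₀ (by positivity); linarith
  have hSS1 : sinh lam ^ 2 ≤ S1 := by
    rcases hS1 with h | h
    · refine le_trans ?_ h
      apply pow_le_pow_left₀ hsl0.le
      refine hKlam.trans ?_
      gcongr
    · refine le_trans ?_ h
      apply pow_le_pow_left₀ hsl0.le; linarith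
  have hA : A0 ≤ rr lam th := by
    rcases hA0 with h | h
    · refine h.trans ?_
      unfold rr
      gcongr
    · linarith
  have hr := rr_pos (lam := lam) hcos
  set a : ℝ := √(rr lam th) with ha
  have hap : 0 < a := sqrt_pos.mpr hr
  have ha2 : a ^ 2 = rr lam th := sq_sqrt hr.le
  have hrat := ratio (S := sinh lam ^ 2) (c := cos th) (s := sin th) hr0 hSS0
    hSS1 hs0p.le a1 hcos.le a3 e0 e1
  -- arsinh
  have hars : arsinh (sin th / a) ≤ E := by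
    rw [← arsinh_sinh E, arsinh_le_arsinh, div_le_iff₀ hap]
    have b1 := sinh_lo hE0
    have b0 : 0 ≤ E + E ^ 3 / 6 + E ^ 5 / 120 := by positivity
    have b2 : sin th ^ 2 ≤ (sinh E * a) ^ 2 := by
      rw [mul_pow, ha2]
      calc sin th ^ 2 ≤ s1 ^ 2 := by gcongr
        _ ≤ (E + E ^ 3 / 6 + E ^ 5 / 120) ^ 2 * A0 := hE
        _ ≤ sinh E ^ 2 * rr lam th := by gcongr
    have b3 : 0 ≤ sinh E := b0.trans b1
    exact (pow_le_pow_iff_left₀ hsin.le (by positivity) two_ne_zero).mp b2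
  -- the square root
  have hsq : √(2 / a) ≤ P := by
    rw [sqrt_le_left hP0]
    have b1 : (2 / a) ^ 2 ≤ (P ^ 2) ^ 2 := by
      rw [div_pow, div_le_iff₀ (by positivity), ha2]
      calc (2 : ℝ) ^ 2 = 4 := by norm_num
        _ ≤ P ^ 4 * A0 := hP
        _ ≤ P ^ 4 * rr lam th := by gcongr
        _ = (P ^ 2) ^ 2 * rr lam th := by ring
    exact (pow_le_pow_iff_left₀ (by positivity) (by positivity) two_ne_zero).mp b1
  have hthird : √(2 / a) * (sin th + (sinh lam ^ 2 + lam ^ 2) / (2 * sin th)) ≤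
      P * s1 + be * mu ^ 2 := by
    have b1 : sinh lam ^ 2 + lam ^ 2 ≤ (K ^ 2 + 1) * (mu * t1) ^ 2 := by
      have c1' : sinh lam ^ 2 ≤ (K * lam) ^ 2 := by gcongr
      have c2 : lam ^ 2 ≤ (mu * t1) ^ 2 := by gcongr
      nlinarith [sq_nonneg K]
    have b2 : (sinh lam ^ 2 + lam ^ 2) / (2 * sin th) ≤ (K ^ 2 + 1) * (mu * t1) ^ 2 / (2 * s0) := by
      gcongr
    have b3 : √(2 / a) * (sin th + (sinh lam ^ 2 + lam ^ 2) / (2 * sin th)) ≤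
        P * (s1 + (K ^ 2 + 1) * (mu * t1) ^ 2 / (2 * s0)) := by
      gcongr
    have b4 : P * (s1 + (K ^ 2 + 1) * (mu * t1) ^ 2 / (2 * s0)) =
        P * s1 + (P * (K ^ 2 + 1) * t1 ^ 2 / (2 * s0)) * mu ^ 2 := by
      field_simp
    rw [b4] at b3
    have b5 : (P * (K ^ 2 + 1) * t1 ^ 2 / (2 * s0)) * mu ^ 2 ≤ be * mu ^ 2 := by gcongr
    linarith
  -- the angle
  have hang : mu * arctan (sinh lam / cos th) ≤ F1 * mu ^ 2 + F2 * mu := by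
    rcases hF with h | h
    · have b1 : arctan (sinh lam / cos th) ≤ sinh lam / cos th := by
        have : 0 ≤ sinh lam / cos th := by positivity
        exact arctan_le_self' this
      have b2 : sinh lam / cos th ≤ K * (mu * t1) / c1 := by
        have c1' : sinh lam ≤ K * (mu * t1) := hKlam.trans (by gcongr)
        have c2' : 0 ≤ K * (mu * t1) := hsl0.le.trans c1'
        gcongr
      have b3 : K * (mu * t1) / c1 = K * t1 / c1 * mu := by ring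
      have b4 : K * t1 / c1 * mu ≤ F1 * mu := by gcongr
      have b5 : arctan (sinh lam / cos th) ≤ F1 * mu := by linarith
      have b6 : 0 ≤ F2 * mu := by positivity
      calc mu * arctan (sinh lam / cos th) ≤ mu * (F1 * mu) := by gcongr
        _ ≤ F1 * mu ^ 2 + F2 * mu := by nlinarith
    · have b1 : arctan (sinh lam / cos th) ≤ th := by
        have h3 : arctan (tan th) = th := arctan_tan (by linarith [pi_pos]) h2
        have h4 : arctan (sinh lam / cos th) ≤ arctan (tan th) := by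
          apply arctan_mono
          rw [tan_eq_sin_div_cos]
          gcongr
        linarith
      have b2 : 0 ≤ F1 * mu ^ 2 := by positivity
      calc mu * arctan (sinh lam / cos th) ≤ mu * F2 := by
            gcongr; linarith
        _ ≤ F1 * mu ^ 2 + F2 * mu := by nlinarith
  have hpi := pi_gt_d4
  have hlast : mu * (2 * 3.1415 - t1) ≤ mu * (2 * π - th) := by
    gcongr
  have hbe0 : 0 ≤ be := le_trans (by positivity) hbe
  have hGle : Gf lam th ≤ g := by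
    have b1 : Gf lam th ≤ E + P * s1 + (be + F1) * mu ^ 2 + F2 * mu
        - mu * (2 * 3.1415 - t1) := by
      unfold Gf Zf
      rw [← ha, ← hmu]
      linarith
    have b2 : 0 ≤ (mu - m0) * (m1 - mu) := mul_nonneg (by linarith) (by linarith)
    have b3 : (be + F1) * mu ^ 2 ≤ (be + F1) * ((m0 + m1) * mu - m0 * m1) := by
      apply mul_le_mul_of_nonneg_left _ (by positivity)
      nlinarith
    -- chord
    rcases eq_or_lt_of_le (hm0.trans hm1) with h | h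
    · have e : mu = m0 := le_antisymm (by linarith) hm0
      rw [e] at b1; linarith
    · have hd : 0 < m1 - m0 := by linarith
      have b4 : (m1 - m0) * (E + P * s1 + (be + F1) * ((m0 + m1) * mu - m0 * m1) + F2 * mu
          - mu * (2 * 3.1415 - t1)) =
          (m1 - mu) * (E + P * s1 + (be + F1) * m0 ^ 2 + F2 * m0 - m0 * (2 * 3.1415 - t1)) +
          (mu - m0) * (E + P * s1 + (be + F1) * m1 ^ 2 + F2 * m1 - m1 * (2 * 3.1415 - t1)) := by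
        ring
      have b5 : (m1 - mu) * (E + P * s1 + (be + F1) * m0 ^ 2 + F2 * m0
          - m0 * (2 * 3.1415 - t1)) ≤ (m1 - mu) * g :=
        mul_le_mul_of_nonneg_left hg0 (by linarith)
      have b6 : (mu - m0) * (E + P * s1 + (be + F1) * m1 ^ 2 + F2 * m1
          - m1 * (2 * 3.1415 - t1)) ≤ (mu - m0) * g :=
        mul_le_mul_of_nonneg_left hg1 (by linarith)
      have b7 : (m1 - m0) * (E + P * s1 + (be + F1) * ((m0 + m1) * mu - m0 * m1) + F2 * mu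
          - mu * (2 * 3.1415 - t1)) ≤ (m1 - m0) * g := by
        rw [b4]; linarith
      have b8 := le_of_mul_le_mul_left b7 hd
      linarith
  exact Tg_of hcos hG0 hGle hg a4 hrat hfin

end

end Pool.Agent.M4.Cov
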