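import Pool.Agent.helper26.M4.CovC

set_option autoImplicit false

namespace Pool.Agent.M4.Cov

open Real Pool.Agent.M4.Fn

lemma mu_top {lam th t0 t1 s1 mt : ℝ} (hl : 0 < lam) (ht0 : 0 < t0) (h0 : t0 ≤ th)
    (h1 : th ≤ t1) (h2 : th < π / 2) (hsl : sinh lam < sin th) (ht1 : t1 < 1.5)
    (hs1 : t1 - t1 ^ 3 / 6 + t1 ^ 5 / 120 ≤ s1) (hmt : s1 ≤ mt * t0) : lam / th ≤ mt := by
  have hth : 0 < th := by linarith
  have a1 := sin_hi (x := t1) (by linarith)
  have hpi := pi_gt_d2
  have a2 : sin th ≤ sin t1 := by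
    apply sin_le_sin_of_le_of_le_pi_div_two
    · linarith
    · norm_num at *; linarith
    · exact h1
  have a3 : lam ≤ sinh lam := self_le_sinh_iff.mpr hl.le
  have a4 : lam < mt * t0 := by linarith
  have hmt0 : 0 < mt := by
    by_contra hcon
    push Not at hcon
    nlinarith
  rw [div_le_iff₀ hth]
  have : mt * t0 ≤ mt * th := by gcongr
  linarith

end Pool.Agent.M4.Cov
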