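import Pool.Agent.helper26.M4.CovC2

/-!
# Project M4, block II, row COV: boxes for `3/5 <= th` (part 1; generated)
-/

set_option autoImplicit false

namespace Pool.Agent.M4.Cov

open Real Pool.Agent.M4.Fn

lemma seg1 {lam th : ℝ} (hl : 0 < lam) (h0 : (3 / 5) ≤ th) (h1 : th ≤ (77 / 125))
    (h2 : th < π / 2) (hsl : sinh lam < sin th) (hrr : 163 / 400 ≤ rr lam th)
    (hG0 : 0 ≤ Gf lam th) :
    Tg 1.69 lam th (lam / th * (π + th)) ∨ Tg 1.69 lam th (Gf lam th) := by
  have hm := mu_top (t0 := (3 / 5)) (t1 := (77 / 125)) (s1 := (57779 / 100000)) (mt := (963 / 1000)) hl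
    (by norm_num) h0 h1 h2 hsl (by norm_num) (by norm_num) (by norm_num)
  rcases le_total (lam / th) (17 / 100) with h | h
  · left
    exact boxP1 (t0 := (3 / 5)) (t1 := (77 / 125)) (17 / 100) (3529 / 6250) (41267 / 50000) (81619 / 100000) (100183 / 100000) (1101 / 100000) (46803 / 100000) (1597 / 2500)
      hl (by norm_num) h0 h1 h2 h
      (by norm_num) (by norm_num) (by norm_num) (by norm_num) (by norm_num) (by norm_num) (by norm_num)
      (by norm_num) (by norm_num) (by norm_num) (by norm_num) (by norm_num) (by norm_num) (by norm_num)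
  · right
    exact boxP2 (t0 := (3 / 5)) (t1 := (77 / 125)) (17 / 100) (963 / 1000) (3529 / 6250) (57779 / 100000) (41267 / 50000) (81619 / 100000) (53013 / 50000) (261 / 25000) (6677 / 20000) (3383 / 5000) (65467 / 100000) (155931 / 100000) (3478 / 3125) (80021 / 100000) 0 (23803 / 50000) (64753 / 100000)
      hl (by norm_num) h0 h1 h2 hsl hrr hG0 h hm
      (by norm_num) (by norm_num) (by norm_num) (by norm_num) (by norm_num) (by norm_num)
      (by norm_num) (by norm_num) (by norm_num) (by norm_num) (by norm_num)
      (Or.inr (by norm_num)) (by norm_num) (Or.inl (by norm_num))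
      (by norm_num) (by norm_num) (by norm_num) (by norm_num) (by norm_num) (by norm_num) (by norm_num)
      (Or.inl (by norm_num)) (by norm_num) (by norm_num) (by norm_num) (by norm_num) (by norm_num) (by norm_num) (by norm_num)

lemma seg2 {lam th : ℝ} (hl : 0 < lam) (h0 : (77 / 125) ≤ th) (h1 : th ≤ (633 / 1000))
    (h2 : th < π / 2) (hsl : sinh lam < sin th) (hrr : 163 / 400 ≤ rr lam th)
    (hG0 : 0 ≤ Gf lam th) :
    Tg 1.69 lam th (lam / th * (π + th)) ∨ Tg 1.69 lam th (Gf lam th) := by
  have hm := mu_top (t0 := (77 / 125)) (t1 := (633 / 1000)) (s1 := (29579 / 50000)) (mt := (961 / 1000)) hl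
    (by norm_num) h0 h1 h2 hsl (by norm_num) (by norm_num) (by norm_num)
  rcases le_total (lam / th) (22 / 125) with h | h
  · left
    exact boxP1 (t0 := (77 / 125)) (t1 := (633 / 1000)) (22 / 125) (57777 / 100000) (4081 / 5000) (129 / 160) (6263 / 6250) (1247 / 100000) (50109 / 100000) (66433 / 100000)
      hl (by norm_num) h0 h1 h2 h
      (by norm_num) (by norm_num) (by norm_num) (by norm_num) (by norm_num) (by norm_num) (by norm_num)
      (by norm_num) (by norm_num) (by norm_num) (by norm_num) (by norm_num) (by norm_num) (by norm_num)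
  · right
    exact boxP2 (t0 := (77 / 125)) (t1 := (633 / 1000)) (22 / 125) (961 / 1000) (57777 / 100000) (29579 / 50000) (4081 / 5000) (129 / 160) (53173 / 50000) (59 / 5000) (34997 / 100000) (66183 / 100000) (67481 / 100000) (78397 / 50000) (57929 / 50000) (41747 / 50000) 0 (50977 / 100000) (66973 / 100000)
      hl (by norm_num) h0 h1 h2 hsl hrr hG0 h hm
      (by norm_num) (by norm_num) (by norm_num) (by norm_num) (by norm_num) (by norm_num)
      (by norm_num) (by norm_num) (by norm_num) (by norm_num) (by norm_num)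
      (Or.inr (by norm_num)) (by norm_num) (Or.inl (by norm_num))
      (by norm_num) (by norm_num) (by norm_num) (by norm_num) (by norm_num) (by norm_num) (by norm_num)
      (Or.inl (by norm_num)) (by norm_num) (by norm_num) (by norm_num) (by norm_num) (by norm_num) (by norm_num) (by norm_num)

lemma seg3 {lam th : ℝ} (hl : 0 < lam) (h0 : (633 / 1000) ≤ th) (h1 : th ≤ (163 / 250))
    (h2 : th < π / 2) (hsl : sinh lam < sin th) (hrr : 163 / 400 ≤ rr lam th)
    (hG0 : 0 ≤ Gf lam th) :
    Tg 1.69 lam th (lam / th * (π + th)) ∨ Tg 1.69 lam th (Gf lam th) := by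
  have hm := mu_top (t0 := (633 / 1000)) (t1 := (163 / 250)) (s1 := (60679 / 100000)) (mt := (959 / 1000)) hl
    (by norm_num) h0 h1 h2 hsl (by norm_num) (by norm_num) (by norm_num)
  rcases le_total (lam / th) (91 / 500) with h | h
  · left
    exact boxP1 (t0 := (633 / 1000)) (t1 := (163 / 250)) (91 / 500) (14789 / 25000) (40313 / 50000) (79487 / 100000) (20047 / 20000) (283 / 20000) (6729 / 12500) (17261 / 25000)
      hl (by norm_num) h0 h1 h2 h
      (by norm_num) (by norm_num) (by norm_num) (by norm_num) (by norm_num) (by norm_num) (by norm_num)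
      (by norm_num) (by norm_num) (by norm_num) (by norm_num) (by norm_num) (by norm_num) (by norm_num)
  · right
    exact boxP2 (t0 := (633 / 1000)) (t1 := (163 / 250)) (91 / 500) (959 / 1000) (14789 / 25000) (60679 / 100000) (40313 / 50000) (79487 / 100000) (21343 / 20000) (1333 / 100000) (1841 / 5000) (32257 / 50000) (69753 / 100000) (157799 / 100000) (30317 / 25000) (17507 / 20000) 0 (1369 / 2500) (69937 / 100000)
      hl (by norm_num) h0 h1 h2 hsl hrr hG0 h hm
      (by norm_num) (by norm_num) (by norm_num) (by norm_num) (by norm_num) (by norm_num)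
      (by norm_num) (by norm_num) (by norm_num) (by norm_num) (by norm_num)
      (Or.inr (by norm_num)) (by norm_num) (Or.inl (by norm_num))
      (by norm_num) (by norm_num) (by norm_num) (by norm_num) (by norm_num) (by norm_num) (by norm_num)
      (Or.inl (by norm_num)) (by norm_num) (by norm_num) (by norm_num) (by norm_num) (by norm_num) (by norm_num) (by norm_num)

lemma seg4 {lam th : ℝ} (hl : 0 < lam) (h0 : (163 / 250) ≤ th) (h1 : th ≤ (673 / 1000))
    (h2 : th < π / 2) (hsl : sinh lam < sin th) (hrr : 163 / 400 ≤ rr lam th)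
    (hG0 : 0 ≤ Gf lam th) :
    Tg 1.69 lam th (lam / th * (π + th)) ∨ Tg 1.69 lam th (Gf lam th) := by
  have hm := mu_top (t0 := (163 / 250)) (t1 := (673 / 1000)) (s1 := (12467 / 20000)) (mt := (957 / 1000)) hl
    (by norm_num) h0 h1 h2 hsl (by norm_num) (by norm_num) (by norm_num)
  rcases le_total (lam / th) (189 / 1000) with h | h
  · left
    exact boxP1 (t0 := (163 / 250)) (t1 := (673 / 1000)) (189 / 1000) (60677 / 100000) (2484 / 3125) (15639 / 20000) (10027 / 10000) (1627 / 100000) (5827 / 10000) (2253 / 3125)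
      hl (by norm_num) h0 h1 h2 h
      (by norm_num) (by norm_num) (by norm_num) (by norm_num) (by norm_num) (by norm_num) (by norm_num)
      (by norm_num) (by norm_num) (by norm_num) (by norm_num) (by norm_num) (by norm_num) (by norm_num)
  · right
    exact boxP2 (t0 := (163 / 250)) (t1 := (673 / 1000)) (189 / 1000) (957 / 1000) (60677 / 100000) (12467 / 20000) (2484 / 3125) (15639 / 20000) (53569 / 50000) (763 / 50000) (38857 / 100000) (6267 / 10000) (72283 / 100000) (158947 / 100000) (127419 / 100000) (92211 / 100000) 0 (29627 / 50000) (3659 / 5000)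
      hl (by norm_num) h0 h1 h2 hsl hrr hG0 h hm
      (by norm_num) (by norm_num) (by norm_num) (by norm_num) (by norm_num) (by norm_num)
      (by norm_num) (by norm_num) (by norm_num) (by norm_num) (by norm_num)
      (Or.inr (by norm_num)) (by norm_num) (Or.inl (by norm_num))
      (by norm_num) (by norm_num) (by norm_num) (by norm_num) (by norm_num) (by norm_num) (by norm_num)
      (Or.inl (by norm_num)) (by norm_num) (by norm_num) (by norm_num) (by norm_num) (by norm_num) (by norm_num) (by norm_num)

lemma seg5 {lam th : ℝ} (hl : 0 < lam) (h0 : (673 / 1000) ≤ th) (h1 : th ≤ (697 / 1000))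
    (h2 : th < π / 2) (hsl : sinh lam < sin th) (hrr : 163 / 400 ≤ rr lam th)
    (hG0 : 0 ≤ Gf lam th) :
    Tg 1.69 lam th (lam / th * (π + th)) ∨ Tg 1.69 lam th (Gf lam th) := by
  have hm := mu_top (t0 := (673 / 1000)) (t1 := (697 / 1000)) (s1 := (32097 / 50000)) (mt := (477 / 500)) hl
    (by norm_num) h0 h1 h2 hsl (by norm_num) (by norm_num) (by norm_num)
  rcases le_total (lam / th) (99 / 500) with h | h
  · left
    exact boxP1 (t0 := (673 / 1000)) (t1 := (697 / 1000)) (99 / 500) (62333 / 100000) (19549 / 25000) (76677 / 100000) (50159 / 50000) (1917 / 100000) (31771 / 50000) (15201 / 20000)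
      hl (by norm_num) h0 h1 h2 h
      (by norm_num) (by norm_num) (by norm_num) (by norm_num) (by norm_num) (by norm_num) (by norm_num)
      (by norm_num) (by norm_num) (by norm_num) (by norm_num) (by norm_num) (by norm_num) (by norm_num)
  · right
    exact boxP2 (t0 := (673 / 1000)) (t1 := (697 / 1000)) (99 / 500) (477 / 500) (62333 / 100000) (32097 / 50000) (19549 / 25000) (76677 / 100000) (107623 / 100000) (893 / 50000) (41209 / 100000) (60579 / 100000) (9399 / 12500) (160301 / 100000) (67411 / 50000) (97831 / 100000) 0 (64577 / 100000) (38307 / 50000)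
      hl (by norm_num) h0 h1 h2 hsl hrr hG0 h hm
      (by norm_num) (by norm_num) (by norm_num) (by norm_num) (by norm_num) (by norm_num)
      (by norm_num) (by norm_num) (by norm_num) (by norm_num) (by norm_num)
      (Or.inr (by norm_num)) (by norm_num) (Or.inl (by norm_num))
      (by norm_num) (by norm_num) (by norm_num) (by norm_num) (by norm_num) (by norm_num) (by norm_num)
      (Or.inl (by norm_num)) (by norm_num) (by norm_num) (by norm_num) (by norm_num) (by norm_num) (by norm_num) (by norm_num)

lemma seg6 {lam th : ℝ} (hl : 0 < lam) (h0 : (697 / 1000) ≤ th) (h1 : th ≤ (181 / 250))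
    (h2 : th < π / 2) (hsl : sinh lam < sin th) (hrr : 163 / 400 ≤ rr lam th)
    (hG0 : 0 ≤ Gf lam th) :
    Tg 1.69 lam th (lam / th * (π + th)) ∨ Tg 1.69 lam th (Gf lam th) := by
  have hm := mu_top (t0 := (697 / 1000)) (t1 := (181 / 250)) (s1 := (66241 / 100000)) (mt := (951 / 1000)) hl
    (by norm_num) h0 h1 h2 hsl (by norm_num) (by norm_num) (by norm_num)
  rcases le_total (lam / th) (207 / 1000) with h | h
  · left
    exact boxP1 (t0 := (697 / 1000)) (t1 := (181 / 250)) (207 / 1000) (2006 / 3125) (38339 / 50000) (18729 / 25000) (803 / 800) (2263 / 100000) (17521 / 25000) (40009 / 50000)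
      hl (by norm_num) h0 h1 h2 h
      (by norm_num) (by norm_num) (by norm_num) (by norm_num) (by norm_num) (by norm_num) (by norm_num)
      (by norm_num) (by norm_num) (by norm_num) (by norm_num) (by norm_num) (by norm_num) (by norm_num)
  · right
    exact boxP2 (t0 := (697 / 1000)) (t1 := (181 / 250)) (207 / 1000) (951 / 1000) (2006 / 3125) (66241 / 100000) (38339 / 50000) (18729 / 25000) (108193 / 100000) (131 / 6250) (43879 / 100000) (2911 / 5000) (78503 / 100000) (161901 / 100000) (3587 / 2500) (1307 / 1250) 0 (71113 / 100000) (16261 / 20000)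
      hl (by norm_num) h0 h1 h2 hsl hrr hG0 h hm
      (by norm_num) (by norm_num) (by norm_num) (by norm_num) (by norm_num) (by norm_num)
      (by norm_num) (by norm_num) (by norm_num) (by norm_num) (by norm_num)
      (Or.inr (by norm_num)) (by norm_num) (Or.inl (by norm_num))
      (by norm_num) (by norm_num) (by norm_num) (by norm_num) (by norm_num) (by norm_num) (by norm_num)
      (Or.inl (by norm_num)) (by norm_num) (by norm_num) (by norm_num) (by norm_num) (by norm_num) (by norm_num) (by norm_num)

end Pool.Agent.M4.Cov
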