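import Mathlib

/-!
# Elementary bounds of sin, cos, sinh, cosh by Taylor polynomials (real, one variable)
-/

set_option autoImplicit false

namespace Pool.Agent.M4.Fn

open Real

lemma nonneg_of_deriv {f f' : ℝ → ℝ} (h0 : 0 ≤ f 0)
    (hd : ∀ x, HasDerivAt f (f' x) x) (hp : ∀ x, 0 ≤ x → 0 ≤ f' x) :
    ∀ x, 0 ≤ x → 0 ≤ f x := by
  intro x hx
  have hmono : MonotoneOn f (Set.Ici 0) := by
    apply monotoneOn_of_deriv_nonneg (convex_Ici 0)
    · exact fun y _ => (hd y).continuousAt.continuousWithinAt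
    · exact fun y _ => (hd y).differentiableAt.differentiableWithinAt
    · intro y hy
      rw [interior_Ici] at hy
      rw [(hd y).deriv]
      exact hp y (le_of_lt hy)
  exact h0.trans (hmono (Set.mem_Ici.mpr le_rfl) (Set.mem_Ici.mpr hx) hx)

lemma cos_ge2 : ∀ x : ℝ, 0 ≤ x → 0 ≤ cos x - (1 - x ^ 2 / 2) := by
  apply nonneg_of_deriv (f' := fun x => x - sin x)
  · norm_num
  · intro x
    refine HasDerivAt.congr_deriv ((hasDerivAt_cos x).sub ((hasDerivAt_const x (1 : ℝ)).sub ((hasDerivAt_pow 2 x).div_const 2))) ?_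
    norm_num
    try ring
  · exact fun x hx => by have := sin_le hx; linarith

lemma sin_ge3 : ∀ x : ℝ, 0 ≤ x → 0 ≤ sin x - (x - x ^ 3 / 6) := by
  apply nonneg_of_deriv (f' := fun x => cos x - (1 - x ^ 2 / 2))
  · norm_num
  · intro x
    refine HasDerivAt.congr_deriv ((hasDerivAt_sin x).sub ((hasDerivAt_id' x).sub ((hasDerivAt_pow 3 x).div_const 6))) ?_
    norm_num
    try ring
  · exact cos_ge2

lemma cos_le4 : ∀ x : ℝ, 0 ≤ x → 0 ≤ (1 - x ^ 2 / 2 + x ^ 4 / 24) - cos x := by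
  apply nonneg_of_deriv (f' := fun x => sin x - (x - x ^ 3 / 6))
  · norm_num
  · intro x
    refine HasDerivAt.congr_deriv ((((hasDerivAt_const x (1 : ℝ)).sub ((hasDerivAt_pow 2 x).div_const 2)).add ((hasDerivAt_pow 4 x).div_const 24)).sub (hasDerivAt_cos x)) ?_
    norm_num
    try ring
  · exact sin_ge3

lemma sin_le5 : ∀ x : ℝ, 0 ≤ x → 0 ≤ (x - x ^ 3 / 6 + x ^ 5 / 120) - sin x := by
  apply nonneg_of_deriv (f' := fun x => (1 - x ^ 2 / 2 + x ^ 4 / 24) - cos x)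
  · norm_num
  · intro x
    refine HasDerivAt.congr_deriv ((((hasDerivAt_id' x).sub ((hasDerivAt_pow 3 x).div_const 6)).add ((hasDerivAt_pow 5 x).div_const 120)).sub (hasDerivAt_sin x)) ?_
    norm_num
    try ring
  · exact cos_le4

lemma cos_ge6 : ∀ x : ℝ, 0 ≤ x → 0 ≤ cos x - (1 - x ^ 2 / 2 + x ^ 4 / 24 - x ^ 6 / 720) := by
  apply nonneg_of_deriv (f' := fun x => (x - x ^ 3 / 6 + x ^ 5 / 120) - sin x)
  · norm_num
  · intro x
    refine HasDerivAt.congr_deriv ((hasDerivAt_cos x).sub ((((hasDerivAt_const x (1 : ℝ)).sub ((hasDerivAt_pow 2 x).div_const 2)).add ((hasDerivAt_pow 4 x).div_const 24)).sub ((hasDerivAt_pow 6 x).div_const 720))) ?_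
    norm_num
    try ring
  · exact sin_le5

lemma sin_ge7 : ∀ x : ℝ, 0 ≤ x → 0 ≤ sin x - (x - x ^ 3 / 6 + x ^ 5 / 120 - x ^ 7 / 5040) := by
  apply nonneg_of_deriv (f' := fun x => cos x - (1 - x ^ 2 / 2 + x ^ 4 / 24 - x ^ 6 / 720))
  · norm_num
  · intro x
    refine HasDerivAt.congr_deriv ((hasDerivAt_sin x).sub ((((hasDerivAt_id' x).sub ((hasDerivAt_pow 3 x).div_const 6)).add ((hasDerivAt_pow 5 x).div_const 120)).sub ((hasDerivAt_pow 7 x).div_const 5040))) ?_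
    norm_num
    try ring
  · exact cos_ge6

lemma cos_le8 : ∀ x : ℝ, 0 ≤ x → 0 ≤ (1 - x ^ 2 / 2 + x ^ 4 / 24 - x ^ 6 / 720 + x ^ 8 / 40320) - cos x := by
  apply nonneg_of_deriv (f' := fun x => sin x - (x - x ^ 3 / 6 + x ^ 5 / 120 - x ^ 7 / 5040))
  · norm_num
  · intro x
    refine HasDerivAt.congr_deriv ((((((hasDerivAt_const x (1 : ℝ)).sub ((hasDerivAt_pow 2 x).div_const 2)).add ((hasDerivAt_pow 4 x).div_const 24)).sub ((hasDerivAt_pow 6 x).div_const 720)).add ((hasDerivAt_pow 8 x).div_const 40320)).sub (hasDerivAt_cos x)) ?_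
    norm_num
    try ring
  · exact sin_ge7

/-! ## sinh and cosh, lower bounds -/

lemma sinh_ge1 : ∀ x : ℝ, 0 ≤ x → 0 ≤ sinh x - (x) := by
  intro x hx
  have := self_le_sinh_iff.mpr hx
  linarith

lemma cosh_ge2 : ∀ x : ℝ, 0 ≤ x → 0 ≤ cosh x - (1 + x ^ 2 / 2) := by
  apply nonneg_of_deriv (f' := fun x => sinh x - (x))
  · norm_num
  · intro x
    refine HasDerivAt.congr_deriv ((hasDerivAt_cosh x).sub ((hasDerivAt_const x (1 : ℝ)).add ((hasDerivAt_pow 2 x).div_const 2))) ?_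
    norm_num
    try ring
  · exact sinh_ge1

lemma sinh_ge3 : ∀ x : ℝ, 0 ≤ x → 0 ≤ sinh x - (x + x ^ 3 / 6) := by
  apply nonneg_of_deriv (f' := fun x => cosh x - (1 + x ^ 2 / 2))
  · norm_num
  · intro x
    refine HasDerivAt.congr_deriv ((hasDerivAt_sinh x).sub ((hasDerivAt_id' x).add ((hasDerivAt_pow 3 x).div_const 6))) ?_
    norm_num
    try ring
  · exact cosh_ge2

lemma cosh_ge4 : ∀ x : ℝ, 0 ≤ x → 0 ≤ cosh x - (1 + x ^ 2 / 2 + x ^ 4 / 24) := by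
  apply nonneg_of_deriv (f' := fun x => sinh x - (x + x ^ 3 / 6))
  · norm_num
  · intro x
    refine HasDerivAt.congr_deriv ((hasDerivAt_cosh x).sub (((hasDerivAt_const x (1 : ℝ)).add ((hasDerivAt_pow 2 x).div_const 2)).add ((hasDerivAt_pow 4 x).div_const 24))) ?_
    norm_num
    try ring
  · exact sinh_ge3

lemma sinh_ge5 : ∀ x : ℝ, 0 ≤ x → 0 ≤ sinh x - (x + x ^ 3 / 6 + x ^ 5 / 120) := by
  apply nonneg_of_deriv (f' := fun x => cosh x - (1 + x ^ 2 / 2 + x ^ 4 / 24))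
  · norm_num
  · intro x
    refine HasDerivAt.congr_deriv ((hasDerivAt_sinh x).sub (((hasDerivAt_id' x).add ((hasDerivAt_pow 3 x).div_const 6)).add ((hasDerivAt_pow 5 x).div_const 120))) ?_
    norm_num
    try ring
  · exact cosh_ge4

/-! ## sinh and cosh, upper bounds with remainder `x ^ n / n! * cosh x` -/

lemma H1 : ∀ x : ℝ, 0 ≤ x → 0 ≤ (x * cosh x) - sinh x := by
  apply nonneg_of_deriv (f' := fun x => x * sinh x)
  · norm_num
  · intro x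
    refine HasDerivAt.congr_deriv (((hasDerivAt_id' x).mul (hasDerivAt_cosh x)).sub
      (hasDerivAt_sinh x)) ?_
    norm_num
  · intro x hx
    exact mul_nonneg hx (sinh_nonneg_iff.mpr hx)

lemma H2 : ∀ x : ℝ, 0 ≤ x →
    0 ≤ (1 + x ^ 2 / 2 * cosh x) - cosh x := by
  apply nonneg_of_deriv
    (f' := fun x => ((x * cosh x) - sinh x) + x ^ 2 / 2 * sinh x)
  · norm_num
  · intro x
    refine HasDerivAt.congr_deriv
      (((hasDerivAt_const x (1 : ℝ)).add (((hasDerivAt_pow 2 x).div_const 2).mul (hasDerivAt_cosh x))).sub (hasDerivAt_cosh x)) ?_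
    norm_num
    try ring
  · intro x hx
    have h1 := H1 x hx
    have h2 := mul_nonneg (by positivity : 0 ≤ x ^ 2 / 2) (sinh_nonneg_iff.mpr hx)
    show 0 ≤ ((x * cosh x) - sinh x) + x ^ 2 / 2 * sinh x
    linarith

lemma H3 : ∀ x : ℝ, 0 ≤ x →
    0 ≤ (x + x ^ 3 / 6 * cosh x) - sinh x := by
  apply nonneg_of_deriv
    (f' := fun x => ((1 + x ^ 2 / 2 * cosh x) - cosh x) + x ^ 3 / 6 * sinh x)
  · norm_num
  · intro x
    refine HasDerivAt.congr_deriv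
      (((hasDerivAt_id' x).add (((hasDerivAt_pow 3 x).div_const 6).mul (hasDerivAt_cosh x))).sub (hasDerivAt_sinh x)) ?_
    norm_num
    try ring
  · intro x hx
    have h1 := H2 x hx
    have h2 := mul_nonneg (by positivity : 0 ≤ x ^ 3 / 6) (sinh_nonneg_iff.mpr hx)
    show 0 ≤ ((1 + x ^ 2 / 2 * cosh x) - cosh x) + x ^ 3 / 6 * sinh x
    linarith

lemma H4 : ∀ x : ℝ, 0 ≤ x →
    0 ≤ (1 + x ^ 2 / 2 + x ^ 4 / 24 * cosh x) - cosh x := by
  apply nonneg_of_deriv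
    (f' := fun x => ((x + x ^ 3 / 6 * cosh x) - sinh x) + x ^ 4 / 24 * sinh x)
  · norm_num
  · intro x
    refine HasDerivAt.congr_deriv
      ((((hasDerivAt_const x (1 : ℝ)).add ((hasDerivAt_pow 2 x).div_const 2)).add (((hasDerivAt_pow 4 x).div_const 24).mul (hasDerivAt_cosh x))).sub (hasDerivAt_cosh x)) ?_
    norm_num
    try ring
  · intro x hx
    have h1 := H3 x hx
    have h2 := mul_nonneg (by positivity : 0 ≤ x ^ 4 / 24) (sinh_nonneg_iff.mpr hx)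
    show 0 ≤ ((x + x ^ 3 / 6 * cosh x) - sinh x) + x ^ 4 / 24 * sinh x
    linarith

lemma H5 : ∀ x : ℝ, 0 ≤ x →
    0 ≤ (x + x ^ 3 / 6 + x ^ 5 / 120 * cosh x) - sinh x := by
  apply nonneg_of_deriv
    (f' := fun x => ((1 + x ^ 2 / 2 + x ^ 4 / 24 * cosh x) - cosh x) + x ^ 5 / 120 * sinh x)
  · norm_num
  · intro x
    refine HasDerivAt.congr_deriv
      ((((hasDerivAt_id' x).add ((hasDerivAt_pow 3 x).div_const 6)).add (((hasDerivAt_pow 5 x).div_const 120).mul (hasDerivAt_cosh x))).sub (hasDerivAt_sinh x)) ?_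
    norm_num
    try ring
  · intro x hx
    have h1 := H4 x hx
    have h2 := mul_nonneg (by positivity : 0 ≤ x ^ 5 / 120) (sinh_nonneg_iff.mpr hx)
    show 0 ≤ ((1 + x ^ 2 / 2 + x ^ 4 / 24 * cosh x) - cosh x) + x ^ 5 / 120 * sinh x
    linarith

lemma H6 : ∀ x : ℝ, 0 ≤ x →
    0 ≤ (1 + x ^ 2 / 2 + x ^ 4 / 24 + x ^ 6 / 720 * cosh x) - cosh x := by
  apply nonneg_of_deriv
    (f' := fun x => ((x + x ^ 3 / 6 + x ^ 5 / 120 * cosh x) - sinh x) + x ^ 6 / 720 * sinh x)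
  · norm_num
  · intro x
    refine HasDerivAt.congr_deriv
      (((((hasDerivAt_const x (1 : ℝ)).add ((hasDerivAt_pow 2 x).div_const 2)).add ((hasDerivAt_pow 4 x).div_const 24)).add (((hasDerivAt_pow 6 x).div_const 720).mul (hasDerivAt_cosh x))).sub (hasDerivAt_cosh x)) ?_
    norm_num
    try ring
  · intro x hx
    have h1 := H5 x hx
    have h2 := mul_nonneg (by positivity : 0 ≤ x ^ 6 / 720) (sinh_nonneg_iff.mpr hx)
    show 0 ≤ ((x + x ^ 3 / 6 + x ^ 5 / 120 * cosh x) - sinh x) + x ^ 6 / 720 * sinh x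
    linarith

lemma H7 : ∀ x : ℝ, 0 ≤ x →
    0 ≤ (x + x ^ 3 / 6 + x ^ 5 / 120 + x ^ 7 / 5040 * cosh x) - sinh x := by
  apply nonneg_of_deriv
    (f' := fun x => ((1 + x ^ 2 / 2 + x ^ 4 / 24 + x ^ 6 / 720 * cosh x) - cosh x) + x ^ 7 / 5040 * sinh x)
  · norm_num
  · intro x
    refine HasDerivAt.congr_deriv
      (((((hasDerivAt_id' x).add ((hasDerivAt_pow 3 x).div_const 6)).add ((hasDerivAt_pow 5 x).div_const 120)).add (((hasDerivAt_pow 7 x).div_const 5040).mul (hasDerivAt_cosh x))).sub (hasDerivAt_sinh x)) ?_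
    norm_num
    try ring
  · intro x hx
    have h1 := H6 x hx
    have h2 := mul_nonneg (by positivity : 0 ≤ x ^ 7 / 5040) (sinh_nonneg_iff.mpr hx)
    show 0 ≤ ((1 + x ^ 2 / 2 + x ^ 4 / 24 + x ^ 6 / 720 * cosh x) - cosh x) + x ^ 7 / 5040 * sinh x
    linarith

lemma H8 : ∀ x : ℝ, 0 ≤ x →
    0 ≤ (1 + x ^ 2 / 2 + x ^ 4 / 24 + x ^ 6 / 720 + x ^ 8 / 40320 * cosh x) - cosh x := by
  apply nonneg_of_deriv
    (f' := fun x => ((x + x ^ 3 / 6 + x ^ 5 / 120 + x ^ 7 / 5040 * cosh x) - sinh x) + x ^ 8 / 40320 * sinh x)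
  · norm_num
  · intro x
    refine HasDerivAt.congr_deriv
      ((((((hasDerivAt_const x (1 : ℝ)).add ((hasDerivAt_pow 2 x).div_const 2)).add ((hasDerivAt_pow 4 x).div_const 24)).add ((hasDerivAt_pow 6 x).div_const 720)).add (((hasDerivAt_pow 8 x).div_const 40320).mul (hasDerivAt_cosh x))).sub (hasDerivAt_cosh x)) ?_
    norm_num
    try ring
  · intro x hx
    have h1 := H7 x hx
    have h2 := mul_nonneg (by positivity : 0 ≤ x ^ 8 / 40320) (sinh_nonneg_iff.mpr hx)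
    show 0 ≤ ((x + x ^ 3 / 6 + x ^ 5 / 120 + x ^ 7 / 5040 * cosh x) - sinh x) + x ^ 8 / 40320 * sinh x
    linarith

/-! ## usable forms -/

lemma sin_hi {x : ℝ} (hx : 0 ≤ x) : sin x ≤ x - x ^ 3 / 6 + x ^ 5 / 120 := by
  have := sin_le5 x hx; linarith

lemma sin_lo {x : ℝ} (hx : 0 ≤ x) : x - x ^ 3 / 6 + x ^ 5 / 120 - x ^ 7 / 5040 ≤ sin x := by
  have := sin_ge7 x hx; linarith

lemma cos_lo {x : ℝ} (hx : 0 ≤ x) : 1 - x ^ 2 / 2 + x ^ 4 / 24 - x ^ 6 / 720 ≤ cos x := by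
  have := cos_ge6 x hx; linarith

lemma cos_hi {x : ℝ} (hx : 0 ≤ x) :
    cos x ≤ 1 - x ^ 2 / 2 + x ^ 4 / 24 - x ^ 6 / 720 + x ^ 8 / 40320 := by
  have := cos_le8 x hx; linarith

lemma sinh_lo {x : ℝ} (hx : 0 ≤ x) : x + x ^ 3 / 6 + x ^ 5 / 120 ≤ sinh x := by
  have := sinh_ge5 x hx; linarith

lemma sinh_lo3 {x : ℝ} (hx : 0 ≤ x) : x + x ^ 3 / 6 ≤ sinh x := by
  have := sinh_ge3 x hx; linarith

lemma cosh_lo {x : ℝ} (hx : 0 ≤ x) : 1 + x ^ 2 / 2 + x ^ 4 / 24 ≤ cosh x := by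
  have := cosh_ge4 x hx; linarith

/-- `cosh x ≤ 2` for `x ≤ 13/10`. -/
lemma cosh_le_two {x : ℝ} (hx : 0 ≤ x) (h : x ≤ 13 / 10) : cosh x ≤ 2 := by
  have h1 : cosh x ≤ cosh (13 / 10) := by
    rw [cosh_le_cosh, abs_of_nonneg hx, abs_of_nonneg (by norm_num)]; exact h
  have h2 := H6 (13 / 10) (by norm_num)
  norm_num at h2
  nlinarith

lemma cosh_hi {x : ℝ} (hx : 0 ≤ x) (h : x ≤ 13 / 10) :
    cosh x ≤ 1 + x ^ 2 / 2 + x ^ 4 / 24 + x ^ 6 / 600 := by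
  have h1 := cosh_le_two hx h
  have h2 := H8 x hx
  have h3 : x ^ 8 / 40320 * cosh x ≤ x ^ 8 / 40320 * 2 := by gcongr
  have h4 : x ^ 8 ≤ x ^ 6 * (169 / 100) := by
    have : x ^ 2 ≤ 169 / 100 := by nlinarith
    calc x ^ 8 = x ^ 6 * x ^ 2 := by ring
      _ ≤ x ^ 6 * (169 / 100) := by gcongr
  have h5 : 0 ≤ x ^ 6 := by positivity
  nlinarith

/-- `cosh x ≤ 3/2` for `x ≤ 9/10`. -/
lemma cosh_le_32 {x : ℝ} (hx : 0 ≤ x) (h : x ≤ 9 / 10) : cosh x ≤ 3 / 2 := by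
  have h1 := cosh_hi hx (by linarith)
  have h2 : x ^ 2 ≤ 81 / 100 := by nlinarith
  have h4 : x ^ 4 ≤ (81 / 100) ^ 2 := by
    calc x ^ 4 = (x ^ 2) ^ 2 := by ring
      _ ≤ (81 / 100) ^ 2 := by gcongr
  have h6 : x ^ 6 ≤ (81 / 100) ^ 3 := by
    calc x ^ 6 = (x ^ 2) ^ 3 := by ring
      _ ≤ (81 / 100) ^ 3 := by gcongr
  norm_num at h4 h6
  linarith

lemma sinh_hi {x : ℝ} (hx : 0 ≤ x) (h : x ≤ 9 / 10) :
    sinh x ≤ x * (1 + x ^ 2 / 6 + x ^ 4 / 80) := by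
  have h1 := cosh_le_32 hx h
  have h2 := H5 x hx
  have h3 : x ^ 5 / 120 * cosh x ≤ x ^ 5 / 120 * (3 / 2) := by gcongr
  nlinarith

end Pool.Agent.M4.Fn
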